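import Pool.Agent.U125.CD.Main

/-!
# The generating function is not rational
-/

set_option autoImplicit false

namespace Pool.Agent.U125.CD

open PowerSeries

lemma wk_form (n : ℕ) : (∀ i j, n = j + 2 * i → wk n j = (n.choose i : ℤ)) ∧
    (∀ j, (∀ i, n ≠ j + 2 * i) → wk n j = 0) := by
  induction n with
  | zero =>
    refine ⟨fun i j h => ?_, fun j h => ?_⟩
    · obtain ⟨rfl, rfl⟩ : i = 0 ∧ j = 0 := by omega
      simp [wk]
    · rcases j with _ | j
      · exact absurd rfl (h 0)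
      · simp [wk]
  | succ n ih =>
    obtain ⟨h1, h2⟩ := ih
    refine ⟨fun i j h => ?_, fun j h => ?_⟩
    · rcases j with _ | j
      · obtain ⟨i, rfl⟩ : ∃ i', i = i' + 1 := ⟨i - 1, by omega⟩
        have hn : n = 2 * i + 1 := by omega
        simp only [wk]
        rw [h1 i 1 (by omega)]
        subst hn
        have : (2 * i + 1 + 1).choose (i + 1) = 2 * (2 * i + 1).choose i := by
          rw [Nat.choose_succ_succ, Nat.choose_symm_half i]
          ring
        rw [this]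
        push_cast; ring
      · simp only [wk]
        rcases i with _ | i
        · rw [h1 0 j (by omega), h2 (j + 2) (fun i => by omega)]
          simp
        · rw [h1 (i + 1) j (by omega), h1 i (j + 2) (by omega), Nat.choose_succ_succ]
          push_cast; ring
    · rcases j with _ | j
      · simp only [wk]
        rw [h2 1 (fun i hi => h (i + 1) (by omega))]
        ring
      · simp only [wk]
        rw [h2 (j + 2) (fun i hi => h (i + 1) (by omega)), h2 j (fun i hi => h i (by omega))]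
        ring

lemma wk_even (m : ℕ) : wk (2 * m) 0 = (Nat.centralBinom m : ℤ) := by
  rw [(wk_form (2 * m)).1 m 0 (by omega)]
  rfl

lemma wk_odd (m : ℕ) : wk (2 * m + 1) 0 = 0 := (wk_form (2 * m + 1)).2 0 fun i => by omega

lemma wk_rec (n : ℕ) : ((n : ℤ) + 2) * wk (n + 2) 0 = 4 * (n + 1) * wk n 0 := by
  obtain ⟨m, rfl | rfl⟩ := Nat.even_or_odd' n
  · have h := Nat.succ_mul_centralBinom_succ m
    have h' : ((m : ℤ) + 1) * Nat.centralBinom (m + 1) = 2 * (2 * m + 1) * Nat.centralBinom m := by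
      exact_mod_cast h
    rw [show 2 * m + 2 = 2 * (m + 1) by ring, wk_even, wk_even]
    push_cast
    linear_combination 2 * h'
  · rw [show 2 * m + 1 + 2 = 2 * (m + 1) + 1 by ring, wk_odd, wk_odd]
    ring

/-- the series of the returns -/
noncomputable def HH : ℚ⟦X⟧ := PowerSeries.mk fun n => (wk n 0 : ℚ)

lemma HH_der : d⁄dX ℚ HH * (1 - 4 * (X : ℚ⟦X⟧) ^ 2) = 4 * X * HH := by
  have h1 : d⁄dX ℚ HH * (1 - 4 * (X : ℚ⟦X⟧) ^ 2) =
      d⁄dX ℚ HH - C (4 : ℚ) * (d⁄dX ℚ HH * X ^ 2) := by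
    rw [map_ofNat]; ring
  have h2 : 4 * X * HH = C (4 : ℚ) * (HH * X) := by
    rw [map_ofNat]; ring
  rw [h1, h2]
  ext n
  rw [map_sub, coeff_C_mul, coeff_C_mul, coeff_mul_X_pow', coeff_derivative]
  rcases n with _ | n
  · simp [HH, wk]
  · rw [coeff_succ_mul_X]
    have hr : ∀ n : ℕ, ((n : ℚ) + 2) * (wk (n + 2) 0 : ℚ) = 4 * (n + 1) * (wk n 0 : ℚ) := fun n => by
      exact_mod_cast wk_rec n
    rcases n with _ | n
    · have := hr 0
      simp [HH]
      simp at this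
      linarith
    · rw [if_pos (by omega), show n + 1 + 1 - 2 = n by omega, coeff_derivative]
      simp only [HH, coeff_mk]
      have := hr (n + 1)
      push_cast at this ⊢
      have e : n + 1 + 1 + 1 = n + 1 + 2 := rfl
      rw [e]
      linarith

lemma HH_sq : HH ^ 2 * (1 - 4 * (X : ℚ⟦X⟧) ^ 2) = 1 := by
  apply derivative.ext
  · have h4 : d⁄dX ℚ ((4 : ℚ⟦X⟧) * X ^ 2) = 8 * X := by
      rw [Derivation.leibniz, Derivation.leibniz_pow, derivative_X,
        show (4 : ℚ⟦X⟧) = C (4 : ℚ) by rw [map_ofNat], derivative_C]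
      simp only [smul_eq_mul, nsmul_eq_mul]
      rw [map_ofNat]
      push_cast
      ring
    have e : d⁄dX ℚ (HH ^ 2 * (1 - 4 * (X : ℚ⟦X⟧) ^ 2)) =
        2 * HH * (d⁄dX ℚ HH * (1 - 4 * (X : ℚ⟦X⟧) ^ 2)) - 8 * X * HH ^ 2 := by
      rw [Derivation.leibniz, Derivation.leibniz_pow, map_sub, h4, derivative_one]
      simp only [smul_eq_mul, nsmul_eq_mul]
      push_cast
      ring
    rw [e, HH_der, derivative_one]
    ring
  · simp [HH, wk]

lemma irrational (f : ℚ⟦X⟧) (hf : (1 - 2 * (X : ℚ⟦X⟧)) * f = 1 + 4 * X * HH)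
    (P Q : Polynomial ℚ) (hQ : Q ≠ 0) (h : (Q : ℚ⟦X⟧) * f = (P : ℚ⟦X⟧)) : False := by
  have h1 : (16 * X ^ 2 * (Q : ℚ⟦X⟧) ^ 2) =
      ((1 - 2 * X) * (P : ℚ⟦X⟧) - (Q : ℚ⟦X⟧)) ^ 2 * (1 - 4 * X ^ 2) := by
    have h2 : 4 * X * (Q : ℚ⟦X⟧) * HH = (1 - 2 * X) * (P : ℚ⟦X⟧) - (Q : ℚ⟦X⟧) := by
      rw [← h]
      linear_combination (-(Q : ℚ⟦X⟧)) * hf
    rw [← h2]
    linear_combination (-16 * X ^ 2 * (Q : ℚ⟦X⟧) ^ 2) * HH_sq
  have h3 : (16 * Polynomial.X ^ 2 * Q ^ 2 : Polynomial ℚ) =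
      ((1 - 2 * Polynomial.X) * P - Q) ^ 2 * (1 - 4 * Polynomial.X ^ 2) := by
    have key : Polynomial.coeToPowerSeries.ringHom (16 * Polynomial.X ^ 2 * Q ^ 2) =
        Polynomial.coeToPowerSeries.ringHom
          (((1 - 2 * Polynomial.X) * P - Q) ^ 2 * (1 - 4 * Polynomial.X ^ 2)) := by
      simp only [map_mul, map_pow, map_sub, map_ofNat, map_one,
        Polynomial.coeToPowerSeries.ringHom_apply, Polynomial.coe_X]
      exact h1
    exact Polynomial.coe_injective ℚ key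
  have e1 : (16 * Polynomial.X ^ 2 * Q ^ 2 : Polynomial ℚ).leadingCoeff =
      16 * Q.leadingCoeff ^ 2 := by
    have : (16 : Polynomial ℚ) = Polynomial.C 16 := rfl
    rw [Polynomial.leadingCoeff_mul, Polynomial.leadingCoeff_mul, Polynomial.leadingCoeff_pow,
      Polynomial.leadingCoeff_pow, Polynomial.leadingCoeff_X, this, Polynomial.leadingCoeff_C]
    ring
  have e2 : (1 - 4 * Polynomial.X ^ 2 : Polynomial ℚ).leadingCoeff = -4 := by
    have : (1 - 4 * Polynomial.X ^ 2 : Polynomial ℚ) =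
      Polynomial.C (-4) * Polynomial.X ^ 2 + Polynomial.C 0 * Polynomial.X + Polynomial.C 1 := by
      have h4 : (4 : Polynomial ℚ) = Polynomial.C 4 := rfl
      rw [h4]
      simp only [map_neg, map_zero, map_one, zero_mul]
      ring
    rw [this, Polynomial.leadingCoeff_quadratic (by norm_num)]
  have h4 := congrArg Polynomial.leadingCoeff h3
  rw [e1, Polynomial.leadingCoeff_mul, Polynomial.leadingCoeff_pow, e2] at h4
  have h5 : Q.leadingCoeff ≠ 0 := Polynomial.leadingCoeff_ne_zero.2 hQ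
  have h6 : 0 < Q.leadingCoeff ^ 2 := by positivity
  nlinarith [sq_nonneg (((1 - 2 * Polynomial.X) * P - Q : Polynomial ℚ).leadingCoeff)]

end Pool.Agent.U125.CD
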