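import Pool.Agent.U125.CD.Klein

/-!
# The modules `Ω^j k` of the Klein four group
-/

set_option autoImplicit false
set_option linter.unusedSectionVars false

open CategoryTheory CategoryTheory.MonoidalCategory CategoryTheory.Limits

namespace Pool.Agent.U125.CD

noncomputable section

/-- equivariance can be tested on the two generators -/
lemma equiv_gen {A B : Type} [AddCommGroup A] [Module K A] [AddCommGroup B] [Module K B]
    (ρ : Representation K G4 A) (σ : Representation K G4 B) (f : A →ₗ[K] B)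
    (hs : ∀ a, f (ρ sg a) = σ sg (f a)) (ht : ∀ a, f (ρ tg a) = σ tg (f a)) (g : G4) :
    f ∘ₗ ρ g = σ g ∘ₗ f := by
  refine LinearMap.ext fun a => ?_
  rcases g4_cases g with rfl | rfl | rfl | rfl
  · simp
  · exact hs a
  · exact ht a
  · simp only [map_mul, LinearMap.comp_apply, Module.End.mul_apply, hs, ht]

/-- the first two entries etc. -/
def tailL (j : ℕ) : (Fin (j + 1) → K) →ₗ[K] (Fin j → K) := LinearMap.funLeft K K Fin.succ
/-- dropping the last entry -/
def initL (j : ℕ) : (Fin (j + 1) → K) →ₗ[K] (Fin j → K) := LinearMap.funLeft K K Fin.castSucc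

lemma tailL_apply (j : ℕ) (p : Fin (j + 1) → K) (i : Fin j) : tailL j p i = p i.succ := rfl
lemma initL_apply (j : ℕ) (p : Fin (j + 1) → K) (i : Fin j) : initL j p i = p i.castSucc := rfl

/-- adding a zero in front -/
def consL (j : ℕ) : (Fin j → K) →ₗ[K] (Fin (j + 1) → K) where
  toFun p := Fin.cons 0 p
  map_add' p q := by
    funext i; refine Fin.cases ?_ (fun i => ?_) i <;> simp
  map_smul' c p := by
    funext i; refine Fin.cases ?_ (fun i => ?_) i <;> simp

/-- adding a zero at the end -/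
def snocL (j : ℕ) : (Fin j → K) →ₗ[K] (Fin (j + 1) → K) where
  toFun p := Fin.snoc (α := fun _ => K) p 0
  map_add' p q := by
    funext i; refine Fin.lastCases ?_ (fun i => ?_) i <;> simp
  map_smul' c p := by
    funext i; refine Fin.lastCases ?_ (fun i => ?_) i <;> simp

lemma consL_zero (j : ℕ) (p : Fin j → K) : consL j p 0 = 0 := rfl
lemma consL_succ (j : ℕ) (p : Fin j → K) (i : Fin j) : consL j p i.succ = p i := rfl
lemma snocL_last (j : ℕ) (p : Fin j → K) : snocL j p (Fin.last j) = 0 := by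
  show Fin.snoc (α := fun _ => K) p 0 (Fin.last j) = 0
  simp
lemma snocL_castSucc (j : ℕ) (p : Fin j → K) (i : Fin j) : snocL j p i.castSucc = p i := by
  show Fin.snoc (α := fun _ => K) p 0 i.castSucc = p i
  simp

/-- `Ω^j k` -/
abbrev EP (j : ℕ) : Rep.{0} K G4 := two (tailL j) (initL j)
/-- `Ω^{-j} k` -/
abbrev EM (j : ℕ) : Rep.{0} K G4 := two (snocL j) (consL j)

lemma fd_EP (j : ℕ) : FiniteDimensional K (EP j).V :=
  inferInstanceAs (FiniteDimensional K ((Fin (j + 1) → K) × (Fin j → K)))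
lemma fd_EM (j : ℕ) : FiniteDimensional K (EM j).V :=
  inferInstanceAs (FiniteDimensional K ((Fin j → K) × (Fin (j + 1) → K)))
lemma fd_W : FiniteDimensional K W.V := inferInstanceAs (FiniteDimensional K (Fin 3 → K))
lemma fd_W' : FiniteDimensional K W'.V := inferInstanceAs (FiniteDimensional K (Fin 3 → K))

lemma dm_EP (j : ℕ) : dm (EP j) = 2 * j + 1 := by
  show Module.finrank K ((Fin (j + 1) → K) × (Fin j → K)) = _
  rw [Module.finrank_prod, Module.finrank_fin_fun, Module.finrank_fin_fun]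
  ring
lemma dm_EM (j : ℕ) : dm (EM j) = 2 * j + 1 := by
  show Module.finrank K ((Fin j → K) × (Fin (j + 1) → K)) = _
  rw [Module.finrank_prod, Module.finrank_fin_fun, Module.finrank_fin_fun]
  ring

lemma nr_two {A B : Type} [AddCommGroup A] [Module K A] [AddCommGroup B] [Module K B]
    (x y : A →ₗ[K] B) : nr (two x y) = 0 := by
  have h : (two x y).ρ.norm = 0 := by
    refine LinearMap.ext fun v => ?_
    rw [norm4]
    refine Prod.ext ?_ ?_ <;> simp [two_s, two_t] <;> abel_nf <;> simp [z2, z4]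
  unfold nr
  rw [h, LinearMap.range_zero, finrank_bot]

lemma card_G4 : Fintype.card G4 = 4 := by decide

lemma cc_EP (j : ℕ) : cc (EP j) = 2 * j + 1 := by
  unfold cc; rw [dm_EP, nr_two]; push_cast; ring
lemma cc_EM (j : ℕ) : cc (EM j) = 2 * j + 1 := by
  unfold cc; rw [dm_EM, nr_two]; push_cast; ring

/-- maps into `E ⊗ W` in coordinates -/
def homW (C E : Rep.{0} K G4) (u : C.V →ₗ[K] (Fin 3 → E.V))
    (hs : ∀ c, u (C.ρ sg c) = ![E.ρ sg (u c 0), E.ρ sg (u c 1), E.ρ sg (u c 2 + u c 1)])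
    (ht : ∀ c, u (C.ρ tg c) = ![E.ρ tg (u c 0), E.ρ tg (u c 1), E.ρ tg (u c 2 + u c 0)]) :
    C ⟶ E ⊗ W :=
  Rep.ofHom (ρ := C.ρ) (σ := (E ⊗ W : Rep.{0} K G4).ρ)
    { toLinearMap := (co E.V).symm.toLinearMap ∘ₗ u
      isIntertwining' := equiv_gen _ _ _
        (fun c => by
          show (co E.V).symm (u (C.ρ sg c)) = (E ⊗ W : Rep.{0} K G4).ρ sg ((co E.V).symm (u c))
          rw [LinearEquiv.symm_apply_eq, co_W, LinearEquiv.apply_symm_apply, hs]
          simp [sg])
        (fun c => by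
          show (co E.V).symm (u (C.ρ tg c)) = (E ⊗ W : Rep.{0} K G4).ρ tg ((co E.V).symm (u c))
          rw [LinearEquiv.symm_apply_eq, co_W, LinearEquiv.apply_symm_apply, ht]
          simp [tg]) }

lemma co_homW (C E : Rep.{0} K G4) (u : C.V →ₗ[K] (Fin 3 → E.V)) (hs ht) (c : C.V) :
    co E.V ((homW C E u hs ht).hom c) = u c :=
  LinearEquiv.apply_symm_apply _ _

/-- maps into `E ⊗ W'` in coordinates -/
def homW' (C E : Rep.{0} K G4) (u : C.V →ₗ[K] (Fin 3 → E.V))
    (hs : ∀ c, u (C.ρ sg c) = ![E.ρ sg (u c 0), E.ρ sg (u c 1 + u c 0), E.ρ sg (u c 2)])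
    (ht : ∀ c, u (C.ρ tg c) = ![E.ρ tg (u c 0), E.ρ tg (u c 1), E.ρ tg (u c 2 + u c 0)]) :
    C ⟶ E ⊗ W' :=
  Rep.ofHom (ρ := C.ρ) (σ := (E ⊗ W' : Rep.{0} K G4).ρ)
    { toLinearMap := (co E.V).symm.toLinearMap ∘ₗ u
      isIntertwining' := equiv_gen _ _ _
        (fun c => by
          show (co E.V).symm (u (C.ρ sg c)) = (E ⊗ W' : Rep.{0} K G4).ρ sg ((co E.V).symm (u c))
          rw [LinearEquiv.symm_apply_eq, co_W', LinearEquiv.apply_symm_apply, hs]
          simp [sg])
        (fun c => by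
          show (co E.V).symm (u (C.ρ tg c)) = (E ⊗ W' : Rep.{0} K G4).ρ tg ((co E.V).symm (u c))
          rw [LinearEquiv.symm_apply_eq, co_W', LinearEquiv.apply_symm_apply, ht]
          simp [tg]) }

lemma co_homW' (C E : Rep.{0} K G4) (u : C.V →ₗ[K] (Fin 3 → E.V)) (hs ht) (c : C.V) :
    co E.V ((homW' C E u hs ht).hom c) = u c :=
  LinearEquiv.apply_symm_apply _ _

lemma init_tail (j : ℕ) (p : Fin (j + 2) → K) :
    initL j (tailL (j + 1) p) = tailL j (initL (j + 1) p) := rfl

lemma two_fun (j : ℕ) : (2 : Fin j → K) = 0 := by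
  funext i; rfl

/-- the coordinates of the embedding of `EP (j+1)` into `EP j ⊗ W` -/
def uP (j : ℕ) : (EP (j + 1)).V →ₗ[K] (Fin 3 → (EP j).V) :=
  LinearMap.pi ![
    ((initL (j + 1) ∘ₗ LinearMap.fst K _ _).prod
      (initL j ∘ₗ initL (j + 1) ∘ₗ LinearMap.fst K _ _ + initL j ∘ₗ LinearMap.snd K _ _) :
      ((Fin (j + 2) → K) × (Fin (j + 1) → K)) →ₗ[K] ((Fin (j + 1) → K) × (Fin j → K))),
    ((tailL (j + 1) ∘ₗ LinearMap.fst K _ _).prod
      (tailL j ∘ₗ tailL (j + 1) ∘ₗ LinearMap.fst K _ _ + tailL j ∘ₗ LinearMap.snd K _ _) :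
      ((Fin (j + 2) → K) × (Fin (j + 1) → K)) →ₗ[K] ((Fin (j + 1) → K) × (Fin j → K))),
    ((LinearMap.snd K _ _).prod 0 :
      ((Fin (j + 2) → K) × (Fin (j + 1) → K)) →ₗ[K] ((Fin (j + 1) → K) × (Fin j → K)))]

lemma uP_apply (j : ℕ) (c : (Fin (j + 2) → K) × (Fin (j + 1) → K)) : uP j c =
    ![(initL (j + 1) c.1, initL j (initL (j + 1) c.1) + initL j c.2),
      (tailL (j + 1) c.1, tailL j (tailL (j + 1) c.1) + tailL j c.2), (c.2, 0)] := by
  funext i
  fin_cases i <;> rfl

/-- the embedding of `EP (j+1)` into `EP j ⊗ W` -/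
def ιP (j : ℕ) : EP (j + 1) ⟶ EP j ⊗ W :=
  homW (EP (j + 1)) (EP j) (uP j)
    (by
      intro c
      refine (congrArg (uP j) (two_s (tailL (j + 1)) (initL (j + 1)) c)).trans ?_
      rw [uP_apply, uP_apply]
      ext i : 1
      fin_cases i
      · refine Prod.ext ?_ ?_ <;> simp [two_s, init_tail] <;> abel_nf
      · refine Prod.ext ?_ ?_ <;> simp [two_s, init_tail] <;> abel_nf
      · refine Prod.ext ?_ ?_ <;> simp [two_s, init_tail] <;> abel_nf <;> simp [two_fun])
    (by
      intro c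
      refine (congrArg (uP j) (two_t (tailL (j + 1)) (initL (j + 1)) c)).trans ?_
      rw [uP_apply, uP_apply]
      ext i : 1
      fin_cases i
      · refine Prod.ext ?_ ?_ <;> simp [two_t, init_tail] <;> abel_nf
      · refine Prod.ext ?_ ?_ <;> simp [two_t, init_tail] <;> abel_nf
      · refine Prod.ext ?_ ?_ <;> simp [two_t, init_tail] <;> abel_nf <;> simp [two_fun])

/-- a lower bound for the rank of the norm map -/
lemma le_nr {V : Rep.{0} K G4} (hV : FiniteDimensional K V.V) {n : ℕ}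
    (f : (Fin n → K) →ₗ[K] V.V) (hf : Function.Injective f)
    (h : ∀ x, f x ∈ LinearMap.range V.ρ.norm) : n ≤ nr V := by
  have h1 := LinearMap.finrank_le_finrank_of_injective
    (f := f.codRestrict (LinearMap.range V.ρ.norm) h)
    (fun a b hab => hf (congrArg Subtype.val hab))
  rwa [Module.finrank_fin_fun] at h1

lemma dm_tensor (E M : Rep.{0} K G4) : dm (E ⊗ M) = dm E * dm M :=
  Module.finrank_tensorProduct

lemma dm_W : dm W = 3 := by
  show Module.finrank K (Fin 3 → K) = 3
  simp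
lemma dm_W' : dm W' = 3 := by
  show Module.finrank K (Fin 3 → K) = 3
  simp

/-- an element of the free part of `EP j ⊗ W` -/
def rP (j : ℕ) : (Fin j → K) →ₗ[K] (EP j ⊗ W : Rep.{0} K G4).V :=
  (co (EP j).V).symm.toLinearMap ∘ₗ LinearMap.pi ![0, 0,
    ((0 : (Fin j → K) →ₗ[K] (Fin (j + 1) → K)).prod LinearMap.id :
      (Fin j → K) →ₗ[K] ((Fin (j + 1) → K) × (Fin j → K)))]

lemma co_rP (j : ℕ) (x : Fin j → K) : co (EP j).V (rP j x) = ![0, 0, (0, x)] := by
  show co (EP j).V ((co (EP j).V).symm _) = _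
  rw [LinearEquiv.apply_symm_apply]
  funext i
  fin_cases i <;> rfl

lemma nr_EPW (j : ℕ) : j ≤ nr (EP j ⊗ W) := by
  refine le_nr (fd_tensor _ _ (fd_EP j) fd_W) (rP j) ?_ ?_
  · intro a b hab
    have h := congrArg (co (EP j).V) hab
    rw [co_rP, co_rP] at h
    exact congrArg Prod.snd (congrFun h 2)
  · intro x
    refine ⟨(co (EP j).V).symm ![(consL j x, 0), 0, 0], ?_⟩
    apply (co (EP j).V).injective
    rw [co_rP]
    refine (co_norm_W _ _ _).trans ?_
    have h1 : co ((Fin (j + 1) → K) × (Fin j → K)) ((co (EP j).V).symm ![(consL j x, 0), 0, 0]) =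
      ![(consL j x, 0), 0, 0] := LinearEquiv.apply_symm_apply _ _
    rw [h1]
    funext i
    fin_cases i
    · rfl
    · rfl
    · refine Prod.ext rfl ?_
      funext l
      simp [tailL_apply, consL_succ]

/-- `Ω^j k ⊗ Ω k` is `Ω^(j+1) k` plus a free module -/
lemma EP_step (j : ℕ) : ∃ P : Rep.{0} K G4, FiniteDimensional K P.V ∧ Projective P ∧
    Nonempty (EP j ⊗ W ≅ EP (j + 1) ⊞ P) := by
  have hfd : FiniteDimensional K (EP j ⊗ W : Rep.{0} K G4).V := fd_tensor _ _ (fd_EP j) fd_W
  refine ⟨_, fd_FM _, inferInstance, split fv4 (EP (j + 1)) (EP j ⊗ W) (fd_EP _)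
    (fd_tensor _ _ (fd_EP j) fd_W) (ιP j) ?_ ?_⟩
  · rintro c - ⟨v, hv⟩
    have h := congrArg (co (EP j).V) hv
    have h1 : co (EP j).V ((ιP j).hom c) = uP j c := co_homW _ _ _ _ _ c
    have h2 := (co_norm_W (tailL j) (initL j) v).symm.trans (h.trans h1)
    rw [uP_apply] at h2
    have e0 := congrFun h2 0
    have e1 := congrFun h2 1
    have e2 := congrFun h2 2
    have e01 : initL (j + 1) c.1 = 0 := (congrArg Prod.fst e0).symm
    have e11 : tailL (j + 1) c.1 = 0 := (congrArg Prod.fst e1).symm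
    have e21 : c.2 = 0 := (congrArg Prod.fst e2).symm
    refine Prod.ext ?_ e21
    funext i
    refine Fin.lastCases ?_ (fun i => ?_) i
    · exact congrFun e11 (Fin.last j)
    · exact congrFun e01 i
  · rw [dm_tensor, dm_EP, dm_EP, dm_W, card_G4]
    have := nr_EPW j
    omega

/-! ### the negative part -/

/-- a vector with one entry -/
def headL (j : ℕ) : (Fin (j + 1) → K) →ₗ[K] K := LinearMap.proj 0

/-- the first basis vector -/
def firstL (j : ℕ) : K →ₗ[K] (Fin (j + 1) → K) := LinearMap.single K (fun _ => K) 0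

lemma tail_snoc (j : ℕ) (p : Fin (j + 1) → K) :
    tailL (j + 1) (snocL (j + 1) p) = snocL j (tailL j p) := by
  funext i
  rw [tailL_apply]
  refine Fin.lastCases ?_ (fun i => ?_) i
  · rw [snocL_last, Fin.succ_last, snocL_last]
  · rw [snocL_castSucc, tailL_apply, Fin.succ_castSucc, snocL_castSucc]

lemma tail_cons (j : ℕ) (p : Fin j → K) : tailL j (consL j p) = p := rfl

lemma first_add_cons (j : ℕ) (p : Fin (j + 1) → K) :
    firstL j (p 0) + consL j (tailL j p) = p := by
  funext i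
  refine Fin.cases ?_ (fun i => ?_) i
  · simp [firstL, consL_zero]
  · simp [firstL, consL_succ, tailL_apply]

/-- the coordinates of the embedding of `EM (j+1)` into `EM j ⊗ W'` -/
def uM (j : ℕ) : (EM (j + 1)).V →ₗ[K] (Fin 3 → (EM j).V) :=
  LinearMap.pi ![
    ((0 : ((Fin (j + 1) → K) × (Fin (j + 2) → K)) →ₗ[K] (Fin j → K)).prod
      (firstL j ∘ₗ headL j ∘ₗ LinearMap.fst K _ _) :
      ((Fin (j + 1) → K) × (Fin (j + 2) → K)) →ₗ[K] ((Fin j → K) × (Fin (j + 1) → K))),
    ((0 : ((Fin (j + 1) → K) × (Fin (j + 2) → K)) →ₗ[K] (Fin j → K)).prod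
      (firstL j ∘ₗ headL (j + 1) ∘ₗ LinearMap.snd K _ _) :
      ((Fin (j + 1) → K) × (Fin (j + 2) → K)) →ₗ[K] ((Fin j → K) × (Fin (j + 1) → K))),
    ((tailL j ∘ₗ LinearMap.fst K _ _).prod
      (consL j ∘ₗ tailL j ∘ₗ LinearMap.fst K _ _ + tailL (j + 1) ∘ₗ LinearMap.snd K _ _) :
      ((Fin (j + 1) → K) × (Fin (j + 2) → K)) →ₗ[K] ((Fin j → K) × (Fin (j + 1) → K)))]

lemma uM_apply (j : ℕ) (c : (Fin (j + 1) → K) × (Fin (j + 2) → K)) : uM j c =
    ![(0, firstL j (c.1 0)), (0, firstL j (c.2 0)),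
      (tailL j c.1, consL j (tailL j c.1) + tailL (j + 1) c.2)] := by
  funext i
  fin_cases i <;> rfl

/-- the embedding of `EM (j+1)` into `EM j ⊗ W'` -/
def ιM (j : ℕ) : EM (j + 1) ⟶ EM j ⊗ W' :=
  homW' (EM (j + 1)) (EM j) (uM j)
    (by
      intro c
      refine (congrArg (uM j) (two_s (snocL (j + 1)) (consL (j + 1)) c)).trans ?_
      rw [uM_apply, uM_apply]
      have h0 : (snocL (j + 1) c.1) 0 = c.1 0 := snocL_castSucc (j + 1) c.1 0
      ext i : 1
      fin_cases i
      · refine Prod.ext ?_ ?_ <;> simp [two_s]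
      · refine Prod.ext ?_ ?_ <;> simp [two_s, h0]
      · refine Prod.ext ?_ ?_ <;> simp [two_s, tail_snoc] <;> abel)
    (by
      intro c
      refine (congrArg (uM j) (two_t (snocL (j + 1)) (consL (j + 1)) c)).trans ?_
      rw [uM_apply, uM_apply]
      have h0 : (consL (j + 1) c.1) 0 = 0 := rfl
      have h1 := first_add_cons j c.1
      ext i : 1
      fin_cases i
      · refine Prod.ext ?_ ?_ <;> simp [two_t]
      · refine Prod.ext ?_ ?_ <;> simp [two_t, h0]
      · refine Prod.ext ?_ ?_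
        · simp [two_t]
        · have key : ∀ (P CT F T2 : Fin (j + 1) → K), F + CT = P →
              CT + (T2 + P) = CT + T2 + F + CT := by
            intro P CT F T2 h; rw [← h]; abel
          exact (key _ _ _ _ h1).trans (by simp [two_t]; rfl))

/-- an element of the free part of `E ⊗ W'` -/
def rM {A B : Type} [AddCommGroup A] [Module K A] [AddCommGroup B] [Module K B]
    (x y : A →ₗ[K] B) : A →ₗ[K] (two x y ⊗ W' : Rep.{0} K G4).V :=
  (co (A × B)).symm.toLinearMap ∘ₗ LinearMap.pi ![0,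
    ((0 : A →ₗ[K] A).prod y : A →ₗ[K] (A × B)), ((0 : A →ₗ[K] A).prod x : A →ₗ[K] (A × B))]

section
variable {A B : Type} [AddCommGroup A] [Module K A] [AddCommGroup B] [Module K B]
  (x y : A →ₗ[K] B)

lemma co_rM (a : A) : co (A × B) (rM x y a) = ![0, (0, y a), (0, x a)] := by
  show co (A × B) ((co (A × B)).symm _) = _
  rw [LinearEquiv.apply_symm_apply]
  funext i
  fin_cases i <;> rfl

lemma rM_mem (a : A) : rM x y a ∈ LinearMap.range (two x y ⊗ W' : Rep.{0} K G4).ρ.norm := by
  refine ⟨(co (A × B)).symm ![(a, 0), 0, 0], ?_⟩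
  apply (co (A × B)).injective
  rw [co_rM]
  refine (co_norm_W' _ _ _).trans ?_
  rw [LinearEquiv.apply_symm_apply]
  rfl

lemma rM_inj (h : ∀ a, y a = 0 → x a = 0 → a = 0) : Function.Injective (rM x y) := by
  rw [← LinearMap.ker_eq_bot, LinearMap.ker_eq_bot']
  intro a ha
  have h1 := congrArg (co (A × B)) ha
  rw [co_rM, map_zero] at h1
  exact h a (congrArg Prod.snd (congrFun h1 1)) (congrArg Prod.snd (congrFun h1 2))

end

lemma nr_EMW (j : ℕ) : j ≤ nr (EM j ⊗ W') := by
  refine le_nr (fd_tensor _ _ (fd_EM j) fd_W') (rM (snocL j) (consL j)) ?_ ?_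
  · refine rM_inj _ _ fun a ha _ => ?_
    funext i
    exact congrFun ha i.succ
  · exact rM_mem _ _

/-- `Ω^{-j} k ⊗ Ω^{-1} k` is `Ω^{-(j+1)} k` plus a free module -/
lemma EM_step (j : ℕ) : ∃ P : Rep.{0} K G4, FiniteDimensional K P.V ∧ Projective P ∧
    Nonempty (EM j ⊗ W' ≅ EM (j + 1) ⊞ P) := by
  have hfd : FiniteDimensional K (EM j ⊗ W' : Rep.{0} K G4).V := fd_tensor _ _ (fd_EM j) fd_W'
  refine ⟨_, fd_FM _, inferInstance, split fv4 (EM (j + 1)) (EM j ⊗ W') (fd_EM _)
    (fd_tensor _ _ (fd_EM j) fd_W') (ιM j) ?_ ?_⟩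
  · rintro c - ⟨v, hv⟩
    have h := congrArg (co (EM j).V) hv
    have h1 : co (EM j).V ((ιM j).hom c) = uM j c := co_homW' _ _ _ _ _ c
    have h2 := (co_norm_W' (snocL j) (consL j) v).symm.trans (h.trans h1)
    rw [uM_apply] at h2
    generalize co ((Fin j → K) × (Fin (j + 1) → K)) v 0 = w at h2
    have e0 : firstL j (c.1 0) = 0 := (congrArg Prod.snd (congrFun h2 0)).symm
    have e1 : consL j w.1 = firstL j (c.2 0) := congrArg Prod.snd (congrFun h2 1)
    have e2 : tailL j c.1 = 0 := (congrArg Prod.fst (congrFun h2 2)).symm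
    have e3 : snocL j w.1 = consL j (tailL j c.1) + tailL (j + 1) c.2 :=
      congrArg Prod.snd (congrFun h2 2)
    have f0 : c.1 0 = 0 := by
      have := congrFun e0 0
      simpa [firstL] using this
    have f1 : c.2 0 = 0 := by
      have := congrFun e1 0
      rw [consL_zero] at this
      simpa [firstL] using this.symm
    have f2 : w.1 = 0 := by
      funext i
      have := congrFun e1 i.succ
      rw [consL_succ] at this
      rw [this, f1, map_zero]
      rfl
    rw [e2, f2, map_zero, map_zero, zero_add] at e3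
    refine Prod.ext ?_ ?_
    · funext i
      refine Fin.cases f0 (fun i => ?_) i
      exact congrFun e2 i
    · funext i
      refine Fin.cases f1 (fun i => ?_) i
      exact (congrFun e3 i).symm
  · rw [dm_tensor, dm_EM, dm_EM, dm_W', card_G4]
    have := nr_EMW j
    omega

/-! ### the trivial module -/

lemma fd_one : FiniteDimensional K (𝟙_ (Rep.{0} K G4)).V := inferInstanceAs (FiniteDimensional K K)

lemma iso_EP0 : Nonempty (𝟙_ (Rep.{0} K G4) ≅ EP 0) := by
  let f : 𝟙_ (Rep.{0} K G4) ⟶ EP 0 := Rep.ofHom (ρ := Representation.trivial K G4 K)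
    (σ := twoRho (tailL 0) (initL 0))
    { toLinearMap := (LinearMap.pi fun _ => LinearMap.id).prod 0
      isIntertwining' := fun g => by
        refine LinearMap.ext fun a => ?_
        refine Prod.ext rfl ?_
        exact Subsingleton.elim _ _ }
  have hf : ∀ a, f.hom a = (fun _ => a, 0) := fun a => rfl
  have : IsIso f := isIso_of_bij f ⟨fun a b hab => by
    rw [hf, hf] at hab
    exact congrFun (congrArg Prod.fst hab) 0, fun b => ⟨b.1 0, by
      rw [hf]
      refine Prod.ext ?_ (Subsingleton.elim _ _)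
      funext i
      fin_cases i
      rfl⟩⟩
  exact ⟨asIso f⟩

lemma iso_EM0 : Nonempty (𝟙_ (Rep.{0} K G4) ≅ EM 0) := by
  let f : 𝟙_ (Rep.{0} K G4) ⟶ EM 0 := Rep.ofHom (ρ := Representation.trivial K G4 K)
    (σ := twoRho (snocL 0) (consL 0))
    { toLinearMap := (0 : K →ₗ[K] (Fin 0 → K)).prod (LinearMap.pi fun _ => LinearMap.id)
      isIntertwining' := fun g => by
        refine LinearMap.ext fun a => ?_
        refine Prod.ext (Subsingleton.elim _ _) ?_
        funext i
        show a = a + ((Multiplicative.toAdd g).1 • snocL 0 (0 : Fin 0 → K) +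
          (Multiplicative.toAdd g).2 • consL 0 (0 : Fin 0 → K)) i
        rw [map_zero, map_zero, smul_zero, smul_zero]
        simp }
  have hf : ∀ a, f.hom a = (0, fun _ => a) := fun a => rfl
  have : IsIso f := isIso_of_bij f ⟨fun a b hab => by
    rw [hf, hf] at hab
    exact congrFun (congrArg Prod.snd hab) 0, fun b => ⟨b.2 0, by
      rw [hf]
      refine Prod.ext (Subsingleton.elim _ _) ?_
      funext i
      fin_cases i
      rfl⟩⟩
  exact ⟨asIso f⟩

/-- `Ω k` is `EP 1` -/
lemma iso_W : Nonempty (W ≅ EP 1) := by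
  let f : W ⟶ EP 1 := Rep.ofHom (ρ := wRho) (σ := twoRho (tailL 1) (initL 1))
    { toLinearMap := (LinearMap.funLeft K K (Fin.castSucc : Fin 2 → Fin 3)).prod
        (LinearMap.funLeft K K (fun _ : Fin 1 => (2 : Fin 3)))
      isIntertwining' := fun g => by
        refine LinearMap.ext fun a => ?_
        refine Prod.ext ?_ ?_
        · funext i
          fin_cases i <;> rfl
        · funext i
          show wRho g a 2 = (twoRho (tailL 1) (initL 1) g (_, _)).2 i
          rw [twoRho_apply]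
          fin_cases i
          simp [wRho, LinearMap.funLeft_apply, tailL_apply, initL_apply]
          ring }
  have hf : ∀ a, f.hom a = (fun i => a i.castSucc, fun _ => a 2) := fun a => rfl
  have : IsIso f := isIso_of_bij f ⟨fun a b hab => by
    rw [hf, hf] at hab
    have h1 := congrArg Prod.fst hab
    have h2 := congrFun (congrArg Prod.snd hab) 0
    funext i
    refine Fin.lastCases ?_ (fun i => ?_) i
    · exact h2
    · exact congrFun h1 i, fun b => ⟨Fin.snoc (α := fun _ => K) b.1 (b.2 0), by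
      rw [hf]
      refine Prod.ext ?_ ?_
      · funext i
        simp
      · funext i
        fin_cases i
        exact Fin.snoc_last (α := fun _ => K) (b.2 0) b.1⟩⟩
  exact ⟨asIso f⟩

end

end Pool.Agent.U125.CD
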