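import Pool.Agent.U125.CD.General

/-!
# The core dimension of iterated tensor products
-/

set_option autoImplicit false
set_option linter.unusedSectionVars false

open CategoryTheory CategoryTheory.MonoidalCategory CategoryTheory.Limits

namespace Pool.Agent.U125.CD

noncomputable section

variable {k G : Type} [Field k] [Group G] [Fintype G]

/-- the dimension of the projective-free part, by the formula `dim - |G| * rank (norm)` -/
def cc (V : Rep.{0} k G) : ℤ := (dm V : ℤ) - Fintype.card G * nr V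

/-- iterated tensoring by `M` from the right -/
abbrev it (M : Rep.{0} k G) (n : ℕ) (U : Rep.{0} k G) : Rep.{0} k G :=
  (fun X : Rep.{0} k G => X ⊗ M)^[n] U

lemma it_succ (M : Rep.{0} k G) (n : ℕ) (U : Rep.{0} k G) : it M (n + 1) U = it M n (U ⊗ M) :=
  Function.iterate_succ_apply _ _ _

lemma it_succ' (M : Rep.{0} k G) (n : ℕ) (U : Rep.{0} k G) : it M (n + 1) U = it M n U ⊗ M :=
  Function.iterate_succ_apply' _ _ _

lemma fd_tensor (U M : Rep.{0} k G) (hU : FiniteDimensional k U.V)
    (hM : FiniteDimensional k M.V) : FiniteDimensional k (U ⊗ M : Rep.{0} k G).V :=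
  inferInstanceAs (FiniteDimensional k (TensorProduct k U.V M.V))

lemma fd_it (M : Rep.{0} k G) (hM : FiniteDimensional k M.V) (n : ℕ) (U : Rep.{0} k G)
    (hU : FiniteDimensional k U.V) : FiniteDimensional k (it M n U).V := by
  induction n generalizing U with
  | zero => exact hU
  | succ n ih => rw [it_succ]; exact ih _ (fd_tensor _ _ hU hM)

/-- tensoring a biproduct from the right -/
def distR (A B M : Rep.{0} k G) : (A ⊞ B) ⊗ M ≅ (A ⊗ M) ⊞ (B ⊗ M) :=
  haveI : PreservesBinaryBiproducts (tensorRight M) :=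
    preservesBinaryBiproducts_of_preservesBiproducts _
  (tensorRight M).mapBiprod A B

/-- tensoring a biproduct from the left -/
def distL (M A B : Rep.{0} k G) : M ⊗ (A ⊞ B) ≅ (M ⊗ A) ⊞ (M ⊗ B) :=
  haveI : PreservesBinaryBiproducts (tensorLeft M) :=
    preservesBinaryBiproducts_of_preservesBiproducts _
  (tensorLeft M).mapBiprod A B

lemma proj_tensorL (M P : Rep.{0} k G) (hP : Projective P) : Projective (M ⊗ P) := by
  have : (MonoidalClosed.closed (C := Rep.{0} k G) (X := M)).rightAdj.PreservesEpimorphisms := by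
    constructor
    intro X Y f hf
    have hsurj := (Rep.epi_iff_surjective f).1 hf
    obtain ⟨s, hs⟩ := LinearMap.exists_rightInverse_of_surjective f.hom.toLinearMap
      (LinearMap.range_eq_top.2 hsurj)
    rw [Rep.epi_iff_surjective]
    intro φ
    have key : ∀ ψ : M.V →ₗ[k] Y.V, f.hom.toLinearMap ∘ₗ s ∘ₗ ψ = ψ := fun ψ => by
      rw [← LinearMap.comp_assoc, hs, LinearMap.id_comp]
    exact ⟨s ∘ₗ φ, key φ⟩
  exact (MonoidalClosed.closed (C := Rep.{0} k G) (X := M)).adj.map_projective P hP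

lemma proj_tensorR (P M : Rep.{0} k G) (hP : Projective P) : Projective (P ⊗ M) :=
  Projective.of_iso (β_ M P) (proj_tensorL M P hP)

lemma cc_iso {V W : Rep.{0} k G} (e : V ≅ W) : cc V = cc W := by
  unfold cc; rw [dm_iso e, nr_iso e]

lemma cc_biprod (A B : Rep.{0} k G) (hA : FiniteDimensional k A.V)
    (hB : FiniteDimensional k B.V) : cc (A ⊞ B) = cc A + cc B := by
  unfold cc; rw [dm_biprod A B hA hB, nr_biprod A B hA hB]; push_cast; ring

lemma cc_proj (hFV : FV k G) (P : Rep.{0} k G) (hP : FiniteDimensional k P.V)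
    (h : Projective P) : cc P = 0 := by
  unfold cc; rw [dm_projective hFV P hP h]; push_cast; ring

/-- the core dimension of `U ⊗ M ⊗ ⋯ ⊗ M` -/
def aa (M : Rep.{0} k G) (n : ℕ) (U : Rep.{0} k G) : ℤ := cc (it M n U)

lemma aa_zero (M U : Rep.{0} k G) : aa M 0 U = cc U := rfl

lemma aa_succ (M : Rep.{0} k G) (n : ℕ) (U : Rep.{0} k G) : aa M (n + 1) U = aa M n (U ⊗ M) := by
  unfold aa; rw [it_succ]

lemma aa_iso (M : Rep.{0} k G) (n : ℕ) {U U' : Rep.{0} k G} (e : U ≅ U') :
    aa M n U = aa M n U' := by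
  induction n generalizing U U' with
  | zero => exact cc_iso e
  | succ n ih => rw [aa_succ, aa_succ]; exact ih (whiskerRightIso e M)

lemma aa_biprod (M : Rep.{0} k G) (hM : FiniteDimensional k M.V) (n : ℕ) (A B : Rep.{0} k G)
    (hA : FiniteDimensional k A.V) (hB : FiniteDimensional k B.V) :
    aa M n (A ⊞ B) = aa M n A + aa M n B := by
  induction n generalizing A B with
  | zero => exact cc_biprod A B hA hB
  | succ n ih =>
    rw [aa_succ, aa_succ, aa_succ, aa_iso M n (distR A B M),
      ih _ _ (fd_tensor _ _ hA hM) (fd_tensor _ _ hB hM)]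

lemma aa_proj (hFV : FV k G) (M : Rep.{0} k G) (hM : FiniteDimensional k M.V) (n : ℕ)
    (P : Rep.{0} k G) (hP : FiniteDimensional k P.V) (h : Projective P) : aa M n P = 0 := by
  induction n generalizing P with
  | zero => exact cc_proj hFV P hP h
  | succ n ih =>
    rw [aa_succ]
    exact ih _ (fd_tensor _ _ hP hM) (proj_tensorR P M h)

/-- adding a projective summand does not change the functional -/
lemma aa_add_proj (hFV : FV k G) (M : Rep.{0} k G) (hM : FiniteDimensional k M.V) (n : ℕ)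
    {U A P : Rep.{0} k G} (e : U ≅ A ⊞ P) (hA : FiniteDimensional k A.V)
    (hP : FiniteDimensional k P.V) (h : Projective P) : aa M n U = aa M n A := by
  rw [aa_iso M n e, aa_biprod M hM n A P hA hP, aa_proj hFV M hM n P hP h, add_zero]

/-- the functional on `U ⊗ W ⊗ W'` if `W ⊗ W'` is stably trivial -/
lemma aa_cancel (hFV : FV k G) (M : Rep.{0} k G) (hM : FiniteDimensional k M.V) (n : ℕ)
    (U W W' P : Rep.{0} k G) (hU : FiniteDimensional k U.V) (hP : FiniteDimensional k P.V)
    (h : Projective P) (e : W ⊗ W' ≅ 𝟙_ (Rep.{0} k G) ⊞ P) :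
    aa M n ((U ⊗ W) ⊗ W') = aa M n U := by
  have e1 : (U ⊗ W) ⊗ W' ≅ U ⊞ (U ⊗ P) :=
    α_ U W W' ≪≫ whiskerLeftIso U e ≪≫ distL U _ _ ≪≫ biprod.mapIso (ρ_ U) (Iso.refl _)
  exact aa_add_proj hFV M hM n e1 hU (fd_tensor _ _ hU hP) (proj_tensorL U P h)

end

end Pool.Agent.U125.CD
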