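import Mathlib

/-!
# The projective-free part of a representation of a finite group

General facts for the hand-in `S03148`.  `nr V` is the rank of the norm map of `V`.  If every
non-zero finite-dimensional representation has a non-zero fixed vector, then the
projective-free part of `V` has dimension `dim V - |G| * nr V`.
-/

set_option autoImplicit false
set_option linter.unusedSectionVars false

open CategoryTheory CategoryTheory.MonoidalCategory CategoryTheory.Limits

namespace Pool.Agent.U125.CD

noncomputable section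

variable {k G : Type} [Field k] [Group G] [Fintype G]

/-- rank of the norm map -/
def nr (V : Rep.{0} k G) : ℕ := Module.finrank k (LinearMap.range V.ρ.norm)

/-- dimension -/
def dm (V : Rep.{0} k G) : ℕ := Module.finrank k V.V

/-- the linear equivalence of an isomorphism -/
def isoLin {V W : Rep.{0} k G} (e : V ≅ W) : V.V ≃ₗ[k] W.V :=
  LinearEquiv.ofLinearMap e.hom.hom.toLinearMap e.inv.hom.toLinearMap
    (by ext x; exact Rep.hom_inv_apply V W e x) (by ext x; exact Rep.inv_hom_apply V W e x)

lemma isoLin_apply {V W : Rep.{0} k G} (e : V ≅ W) (x : V.V) : isoLin e x = e.hom.hom x := rfl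

lemma norm_hom {V W : Rep.{0} k G} (f : V ⟶ W) (x : V.V) :
    f.hom (V.ρ.norm x) = W.ρ.norm (f.hom x) := by
  simp only [Representation.norm, LinearMap.sum_apply, map_sum]
  exact Finset.sum_congr rfl fun g _ => Rep.hom_comm_apply f g x

lemma dm_iso {V W : Rep.{0} k G} (e : V ≅ W) : dm V = dm W :=
  LinearEquiv.finrank_eq (isoLin e)

lemma nr_iso {V W : Rep.{0} k G} (e : V ≅ W) : nr V = nr W := by
  unfold nr
  have h : (LinearMap.range V.ρ.norm).map (isoLin e).toLinearMap = LinearMap.range W.ρ.norm := by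
    ext y
    constructor
    · rintro ⟨_, ⟨x, rfl⟩, rfl⟩
      exact ⟨e.hom.hom x, (norm_hom e.hom x).symm⟩
    · rintro ⟨z, rfl⟩
      refine ⟨V.ρ.norm (e.inv.hom z), ⟨_, rfl⟩, ?_⟩
      show e.hom.hom (V.ρ.norm (e.inv.hom z)) = _
      rw [norm_hom, Rep.hom_inv_apply]
  rw [← h]
  exact (LinearEquiv.finrank_eq ((isoLin e).submoduleMap _))

lemma fd_iso {V W : Rep.{0} k G} (e : V ≅ W) (h : FiniteDimensional k V.V) :
    FiniteDimensional k W.V :=
  LinearEquiv.finiteDimensional (isoLin e)

/-- the product representation -/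
abbrev prodRep (A B : Rep.{0} k G) : Rep.{0} k G := Rep.of (A.ρ.prod B.ρ)

/-- the product as a bicone -/
@[simps] def bic (A B : Rep.{0} k G) : BinaryBicone A B where
  pt := prodRep A B
  fst := Rep.ofHom (.fst k A.ρ B.ρ)
  snd := Rep.ofHom (.snd k A.ρ B.ρ)
  inl := Rep.ofHom (.inl k A.ρ B.ρ)
  inr := Rep.ofHom (.inr k A.ρ B.ρ)
  inl_fst := by ext1; simp
  inl_snd := by ext1; simp [Rep.zero_hom]
  inr_fst := by ext1; simp [Rep.zero_hom]
  inr_snd := by ext1; simp

/-- the biproduct is the product representation -/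
def biprodIso (A B : Rep.{0} k G) : A ⊞ B ≅ prodRep A B :=
  (biprod.uniqueUpToIso A B (b := bic A B)
    (isBinaryBilimitOfTotal _ (Rep.hom_ext (Representation.IntertwiningMap.coprod_inl_inr ..)))).symm

lemma norm_prod (A B : Rep.{0} k G) (x : A.V × B.V) :
    (prodRep A B).ρ.norm x = (A.ρ.norm x.1, B.ρ.norm x.2) := by
  simp only [Representation.norm, LinearMap.sum_apply]
  rw [Prod.ext_iff]
  simp only [Prod.fst_sum, Prod.snd_sum]
  exact ⟨rfl, rfl⟩

lemma dm_prod (A B : Rep.{0} k G) (hA : FiniteDimensional k A.V) (hB : FiniteDimensional k B.V) :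
    dm (prodRep A B) = dm A + dm B := by
  unfold dm
  exact Module.finrank_prod

/-- a product of submodules -/
def prodEquiv {A B : Type} [AddCommGroup A] [Module k A] [AddCommGroup B] [Module k B]
    (p : Submodule k A) (q : Submodule k B) : (p.prod q) ≃ₗ[k] (p × q) where
  toFun x := (⟨x.1.1, x.2.1⟩, ⟨x.1.2, x.2.2⟩)
  invFun x := ⟨(x.1.1, x.2.1), x.1.2, x.2.2⟩
  map_add' _ _ := rfl
  map_smul' _ _ := rfl
  left_inv _ := rfl
  right_inv _ := rfl

lemma nr_prod (A B : Rep.{0} k G) (hA : FiniteDimensional k A.V) (hB : FiniteDimensional k B.V) :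
    nr (prodRep A B) = nr A + nr B := by
  unfold nr
  have h : (prodRep A B).ρ.norm = A.ρ.norm.prodMap B.ρ.norm :=
    LinearMap.ext fun x => norm_prod A B x
  rw [h, LinearMap.range_prodMap, ← Module.finrank_prod]
  exact LinearEquiv.finrank_eq (prodEquiv _ _)

lemma fd_prod (A B : Rep.{0} k G) (hA : FiniteDimensional k A.V) (hB : FiniteDimensional k B.V) :
    FiniteDimensional k (prodRep A B).V := Module.Finite.prod

lemma fd_biprod (A B : Rep.{0} k G) (hA : FiniteDimensional k A.V) (hB : FiniteDimensional k B.V) :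
    FiniteDimensional k (A ⊞ B : Rep.{0} k G).V := fd_iso (biprodIso A B).symm (fd_prod A B hA hB)

lemma dm_biprod (A B : Rep.{0} k G) (hA : FiniteDimensional k A.V)
    (hB : FiniteDimensional k B.V) : dm (A ⊞ B) = dm A + dm B := by
  rw [dm_iso (biprodIso A B), dm_prod A B hA hB]

lemma nr_biprod (A B : Rep.{0} k G) (hA : FiniteDimensional k A.V)
    (hB : FiniteDimensional k B.V) : nr (A ⊞ B) = nr A + nr B := by
  rw [nr_iso (biprodIso A B), nr_prod A B hA hB]

lemma fd_of_biprod (A B : Rep.{0} k G) (h : FiniteDimensional k (A ⊞ B : Rep.{0} k G).V) :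
    FiniteDimensional k A.V ∧ FiniteDimensional k B.V := by
  have h' : FiniteDimensional k (A.V × B.V) := fd_iso (biprodIso A B) h
  exact ⟨Module.Finite.of_surjective (LinearMap.fst k A.V B.V) Prod.fst_surjective,
    Module.Finite.of_surjective (LinearMap.snd k A.V B.V) Prod.snd_surjective⟩

/-! ### The free modules `G → T` -/

/-- the representation on functions `G → T` -/
def fmRho (k G : Type) [Field k] [Group G] (T : Type) [AddCommGroup T] [Module k T] :
    Representation k G (G → T) where
  toFun g := LinearMap.funLeft k T (fun h => g⁻¹ * h)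
  map_one' := by ext F : 1; funext h; simp
  map_mul' a b := by
    refine LinearMap.ext fun F => ?_
    funext h
    show F ((a * b)⁻¹ * h) = F (b⁻¹ * (a⁻¹ * h))
    rw [mul_inv_rev, mul_assoc]

/-- the free module on a vector space -/
abbrev FM (k G : Type) [Field k] [Group G] (T : Type) [AddCommGroup T] [Module k T] :
    Rep.{0} k G := Rep.of (fmRho k G T)

lemma fm_apply {T : Type} [AddCommGroup T] [Module k T] (g : G) (F : G → T) (h : G) :
    (fmRho k G T g F) h = F (g⁻¹ * h) := rfl

/-- maps out of a free module -/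
def indHom {T : Type} [AddCommGroup T] [Module k T] (X : Rep.{0} k G) (s : T →ₗ[k] X.V) :
    FM k G T ⟶ X := Rep.ofHom (ρ := fmRho k G T) (σ := X.ρ)
  { toLinearMap := ∑ h : G, (X.ρ h) ∘ₗ s ∘ₗ LinearMap.proj h
    isIntertwining' := fun g => by
      refine LinearMap.ext fun F => ?_
      simp only [LinearMap.comp_apply, LinearMap.sum_apply, LinearMap.proj_apply, map_sum]
      refine Fintype.sum_bijective (fun h => g⁻¹ * h) (Group.mulLeft_bijective _) _ _ fun h => ?_
      rw [fm_apply, ← Module.End.mul_apply, ← map_mul, mul_inv_cancel_left] }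

lemma indHom_apply {T : Type} [AddCommGroup T] [Module k T] (X : Rep.{0} k G) (s : T →ₗ[k] X.V)
    (F : G → T) : (indHom X s).hom F = ∑ h : G, X.ρ h (s (F h)) := by
  show (∑ h : G, (X.ρ h) ∘ₗ s ∘ₗ LinearMap.proj h) F = _
  simp only [LinearMap.comp_apply, LinearMap.sum_apply, LinearMap.proj_apply]

/-- maps into a free module -/
def coindHom {T : Type} [AddCommGroup T] [Module k T] (X : Rep.{0} k G) (L : X.V →ₗ[k] T) :
    X ⟶ FM k G T := Rep.ofHom (ρ := X.ρ) (σ := fmRho k G T)
  { toLinearMap := LinearMap.pi fun h => L ∘ₗ X.ρ h⁻¹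
    isIntertwining' := fun g => by
      refine LinearMap.ext fun x => ?_
      funext h
      show L (X.ρ h⁻¹ (X.ρ g x)) = L (X.ρ (g⁻¹ * h)⁻¹ x)
      rw [mul_inv_rev, inv_inv, map_mul]
      rfl }

lemma coindHom_apply {T : Type} [AddCommGroup T] [Module k T] (X : Rep.{0} k G)
    (L : X.V →ₗ[k] T) (x : X.V) (h : G) : (coindHom X L).hom x h = L (X.ρ h⁻¹ x) := rfl

lemma dm_FM (T : Type) [AddCommGroup T] [Module k T] [FiniteDimensional k T] :
    dm (FM k G T) = Fintype.card G * Module.finrank k T := by
  show Module.finrank k (G → T) = _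
  rw [Module.finrank_pi_fintype]
  simp

lemma norm_FM (T : Type) [AddCommGroup T] [Module k T] (F : G → T) (h : G) :
    (fmRho k G T).norm F h = ∑ g, F g := by
  simp only [Representation.norm, LinearMap.sum_apply, Finset.sum_apply, fm_apply]
  refine Fintype.sum_bijective (fun g => g⁻¹ * h) ?_ _ _ fun g => rfl
  exact (Group.mulRight_bijective h).comp inv_involutive.bijective

lemma nr_FM (T : Type) [AddCommGroup T] [Module k T] [FiniteDimensional k T] :
    nr (FM k G T) = Module.finrank k T := by
  classical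
  unfold nr
  have h : LinearMap.range (FM k G T).ρ.norm =
      LinearMap.range (LinearMap.pi fun _ : G => (LinearMap.id : T →ₗ[k] T)) := by
    ext y
    constructor
    · rintro ⟨F, rfl⟩
      refine ⟨∑ g, F g, ?_⟩
      funext h
      exact (norm_FM T F h).symm
    · rintro ⟨t, rfl⟩
      refine ⟨Pi.single 1 t, ?_⟩
      funext h
      refine (norm_FM T _ h).trans ?_
      simp
  rw [h]
  refine LinearMap.finrank_range_of_inj fun a b hab => ?_
  exact congrFun hab 1

lemma fd_FM (T : Type) [AddCommGroup T] [Module k T] [FiniteDimensional k T] :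
    FiniteDimensional k (FM k G T).V := inferInstanceAs (FiniteDimensional k (G → T))

lemma fm_single [DecidableEq G] {T : Type} [AddCommGroup T] [Module k T] (h : G) (t : T) :
    fmRho k G T h (Pi.single 1 t) = Pi.single h t := by
  funext x
  rw [fm_apply]
  by_cases hx : x = h
  · subst hx; simp
  · rw [Pi.single_eq_of_ne hx, Pi.single_eq_of_ne]
    intro hc
    exact hx (by rw [inv_mul_eq_one] at hc; exact hc.symm)

instance fm_projective (T : Type) [AddCommGroup T] [Module k T] : Projective (FM k G T) where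
  factors {E X} f e he := by
    classical
    have hsurj : Function.Surjective e.hom := (Rep.epi_iff_surjective e).1 he
    obtain ⟨s, hs⟩ := LinearMap.exists_rightInverse_of_surjective e.hom.toLinearMap
      (LinearMap.range_eq_top.2 hsurj)
    have hs' : ∀ x, e.hom (s x) = x := fun x => LinearMap.congr_fun hs x
    refine ⟨indHom E (s ∘ₗ f.hom.toLinearMap ∘ₗ LinearMap.single k (fun _ : G => T) 1), ?_⟩
    refine Rep.hom_ext (Representation.IntertwiningMap.ext (LinearMap.ext fun F => ?_))
    show e.hom ((indHom E _).hom F) = f.hom F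
    rw [indHom_apply, map_sum]
    have h1 : F = ∑ h : G, fmRho k G T h (Pi.single 1 (F h)) := by
      simp_rw [fm_single]
      exact (Finset.univ_sum_single F).symm
    conv_rhs => rw [h1]
    rw [map_sum]
    refine Finset.sum_congr rfl fun h _ => ?_
    rw [Rep.hom_comm_apply]
    simp only [LinearMap.comp_apply]
    refine (congrArg _ (hs' _)).trans ?_
    exact (Rep.hom_comm_apply f h _).symm

/-! ### Splitting off the free part -/

/-- every non-zero finite-dimensional representation has a non-zero fixed vector -/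
def FV (k G : Type) [Field k] [Group G] : Prop :=
  ∀ (V : Type) [AddCommGroup V] [Module k V] (ρ : Representation k G V), FiniteDimensional k V →
    (∃ v : V, v ≠ 0) → ∃ v : V, v ≠ 0 ∧ ∀ g, ρ g v = v

lemma fixed_const {T : Type} [AddCommGroup T] [Module k T] (F : G → T)
    (hF : ∀ g, fmRho k G T g F = F) (h : G) : F h = F 1 := by
  have := congrFun (hF h⁻¹) 1
  rw [fm_apply] at this
  simpa using this

/-- injectivity can be tested on fixed vectors -/
lemma inj_of_fixed (hFV : FV k G) {V : Rep.{0} k G} (hV : FiniteDimensional k V.V)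
    {W : Rep.{0} k G} (f : V ⟶ W)
    (h : ∀ v : V.V, (∀ g, V.ρ g v = v) → f.hom v = 0 → v = 0) : Function.Injective f.hom := by
  let K : Submodule k V.V := LinearMap.ker f.hom.toLinearMap
  have hK : ∀ g, K ≤ K.comap (V.ρ g) := by
    intro g v hv
    show f.hom (V.ρ g v) = 0
    rw [Rep.hom_comm_apply]
    have : f.hom v = 0 := hv
    rw [this, map_zero]
  have hbot : K = ⊥ := by
    by_contra hne
    obtain ⟨v, hv, hv0⟩ := Submodule.exists_mem_ne_zero_of_ne_bot hne
    obtain ⟨w, hw0, hw⟩ := hFV K (V.ρ.subrepresentation K hK) inferInstance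
      ⟨⟨v, hv⟩, fun hc => hv0 (congrArg Subtype.val hc)⟩
    exact hw0 (Subtype.ext (h w.1 (fun g => congrArg Subtype.val (hw g)) w.2))
  exact LinearMap.ker_eq_bot.1 hbot

/-- the free part of a representation -/
lemma exists_free (hFV : FV k G) (V : Rep.{0} k G) (hV : FiniteDimensional k V.V) :
    ∃ (f : FM k G (LinearMap.range V.ρ.norm) ⟶ V) (q : V ⟶ FM k G (LinearMap.range V.ρ.norm)),
      Function.Bijective (fun F => q.hom (f.hom F)) ∧
      (∀ F, (∀ g, fmRho k G (LinearMap.range V.ρ.norm) g F = F) →
        f.hom F ∈ LinearMap.range V.ρ.norm) ∧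
      (∀ r ∈ LinearMap.range V.ρ.norm, ∃ F, f.hom F = r) := by
  classical
  let R := LinearMap.range V.ρ.norm
  obtain ⟨s, hs⟩ := LinearMap.exists_rightInverse_of_surjective V.ρ.norm.rangeRestrict
    (LinearMap.range_rangeRestrict _)
  have hs' : ∀ c : R, V.ρ.norm (s c) = c := fun c =>
    congrArg Subtype.val (LinearMap.congr_fun hs c)
  obtain ⟨L, hL⟩ := LinearMap.exists_leftInverse_of_injective R.subtype
    (LinearMap.ker_eq_bot.2 (Submodule.injective_subtype R))
  have hL' : ∀ c : R, L c = c := fun c => LinearMap.congr_fun hL c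
  have hfix : ∀ (F : G → R), (∀ g, fmRho k G R g F = F) → (indHom V s).hom F = F 1 := by
    intro F hF
    rw [indHom_apply]
    have : ∀ h : G, V.ρ h (s (F h)) = V.ρ h (s (F 1)) := fun h => by rw [fixed_const F hF h]
    simp_rw [this]
    rw [← hs' (F 1)]
    simp only [Representation.norm, LinearMap.sum_apply]
  refine ⟨indHom V s, coindHom V L, ?_, ?_, ?_⟩
  · have hinj : Function.Injective (indHom V s ≫ coindHom V L).hom := by
      refine inj_of_fixed hFV (fd_FM _) _ fun F hF h0 => ?_
      have h1 : (coindHom V L).hom ((indHom V s).hom F) = F := by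
        rw [hfix F hF]
        funext h
        rw [coindHom_apply]
        have : V.ρ h⁻¹ (F 1 : V.V) = (F 1 : V.V) := by
          rw [← hs' (F 1), Representation.self_norm_apply]
        rw [this, hL', fixed_const F hF h]
      rw [← h1]
      exact h0
    have hinj' : Function.Injective (fun F => (coindHom V L).hom ((indHom V s).hom F)) := hinj
    have : FiniteDimensional k (G → R) := inferInstance
    refine ⟨hinj', ?_⟩
    have := (LinearMap.injective_iff_surjective (K := k) (V := G → R)
      (f := (indHom V s ≫ coindHom V L).hom.toLinearMap)).1 hinj'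
    exact this
  · intro F hF
    rw [hfix F hF]
    exact (F 1).2
  · intro r hr
    refine ⟨fun _ => ⟨r, hr⟩, ?_⟩
    rw [hfix _ fun g => rfl]

lemma isIso_of_bij {V W : Rep.{0} k G} (f : V ⟶ W) (h : Function.Bijective f.hom) : IsIso f := by
  have h1 : Mono f := (Rep.mono_iff_injective f).2 h.1
  have h2 : Epi f := (Rep.epi_iff_surjective f).2 h.2
  exact isIso_of_mono_of_epi f

/-- gluing a subrepresentation to the free part -/
lemma split (hFV : FV k G) (C V : Rep.{0} k G) (hC : FiniteDimensional k C.V)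
    (hV : FiniteDimensional k V.V) (ι : C ⟶ V)
    (hι : ∀ c, (∀ g, C.ρ g c = c) → ι.hom c ∈ LinearMap.range V.ρ.norm → c = 0)
    (hd : dm V ≤ dm C + Fintype.card G * nr V) :
    Nonempty (V ≅ C ⊞ FM k G (LinearMap.range V.ρ.norm)) := by
  classical
  obtain ⟨f, q, hb, hf, -⟩ := exists_free hFV V hV
  let R := LinearMap.range V.ρ.norm
  let φ : prodRep C (FM k G R) ⟶ V := (bic C (FM k G R)).fst ≫ ι + (bic C (FM k G R)).snd ≫ f
  have hφ : ∀ c F, φ.hom (c, F) = ι.hom c + f.hom F := fun c F => rfl
  have hfinj : Function.Injective f.hom := fun a b hab => hb.1 (congrArg q.hom hab)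
  have hinj : Function.Injective φ.hom := by
    refine inj_of_fixed hFV (fd_prod _ _ hC (fd_FM _)) _ ?_
    rintro ⟨c, F⟩ hfix h0
    rw [hφ] at h0
    have hc : ∀ g, C.ρ g c = c := fun g => congrArg Prod.fst (hfix g)
    have hF : ∀ g, fmRho k G R g F = F := fun g => congrArg Prod.snd (hfix g)
    have h1 : ι.hom c = - f.hom F := eq_neg_of_add_eq_zero_left h0
    have hc0 : c = 0 := hι c hc (by rw [h1]; exact neg_mem (hf F hF))
    rw [hc0, map_zero, zero_add] at h0
    have hF0 : F = 0 := hfinj (by rw [h0, map_zero])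
    rw [hc0, hF0]
    rfl
  have hdim : Module.finrank k (prodRep C (FM k G R)).V = Module.finrank k V.V := by
    refine le_antisymm (LinearMap.finrank_le_finrank_of_injective
      (f := φ.hom.toLinearMap) hinj) ?_
    refine hd.trans (le_of_eq ?_)
    show dm C + Fintype.card G * nr V = dm (prodRep C (FM k G R))
    rw [dm_prod _ _ hC (fd_FM _), dm_FM]
    rfl
  have : FiniteDimensional k (prodRep C (FM k G R)).V := fd_prod _ _ hC (fd_FM _)
  have hsurj : Function.Surjective φ.hom :=
    (LinearMap.injective_iff_surjective_of_finrank_eq_finrank hdim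
      (f := φ.hom.toLinearMap)).1 hinj
  have hiso : IsIso φ := isIso_of_bij φ ⟨hinj, hsurj⟩
  exact ⟨(asIso φ).symm ≪≫ (biprodIso C (FM k G R)).symm⟩

/-- every representation is the sum of a representation with zero norm map and a free one -/
lemma decomp (hFV : FV k G) (V : Rep.{0} k G) (hV : FiniteDimensional k V.V) :
    ∃ N : Rep.{0} k G, FiniteDimensional k N.V ∧ nr N = 0 ∧
      dm V = dm N + Fintype.card G * nr V ∧
      Nonempty (V ≅ N ⊞ FM k G (LinearMap.range V.ρ.norm)) := by
  obtain ⟨f, q, hb, hf, hr⟩ := exists_free hFV V hV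
  let K : Submodule k V.V := LinearMap.ker q.hom.toLinearMap
  have hK : ∀ g, K ≤ K.comap (V.ρ g) := by
    intro g v hv
    show q.hom (V.ρ g v) = 0
    rw [Rep.hom_comm_apply]
    have : q.hom v = 0 := hv
    rw [this, map_zero]
  let N := Rep.subrepresentation V K hK
  have hN : FiniteDimensional k N.V := inferInstanceAs (FiniteDimensional k K)
  have hiso : Nonempty (V ≅ N ⊞ FM k G (LinearMap.range V.ρ.norm)) := by
    refine split hFV N V hN hV (Rep.subtype V K hK) ?_ ?_
    · intro c _ hc
      obtain ⟨F, hF⟩ := hr _ hc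
      have h1 : q.hom (f.hom F) = 0 := by
        rw [hF]
        exact c.2
      have h2 : F = 0 := hb.1 (by
        show q.hom (f.hom F) = q.hom (f.hom 0)
        rw [h1, map_zero, map_zero])
      rw [h2, map_zero] at hF
      exact Subtype.ext hF.symm
    · have h1 := LinearMap.finrank_range_add_finrank_ker q.hom.toLinearMap
      have h2 : Module.finrank k (LinearMap.range q.hom.toLinearMap) ≤
          Module.finrank k (G → LinearMap.range V.ρ.norm) := Submodule.finrank_le _
      have h3 : dm (FM k G (LinearMap.range V.ρ.norm)) = Fintype.card G * nr V := dm_FM _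
      have h4 : Module.finrank k (G → LinearMap.range V.ρ.norm) = Fintype.card G * nr V := h3
      show Module.finrank k V.V ≤ Module.finrank k K + _
      have h5 : Module.finrank k K =
        Module.finrank k (LinearMap.ker q.hom.toLinearMap) := rfl
      omega
  obtain ⟨e⟩ := hiso
  have h1 : dm V = dm N + dm (FM k G (LinearMap.range V.ρ.norm)) := by
    rw [dm_iso e, dm_biprod _ _ hN (fd_FM _)]
  have h2 : nr V = nr N + nr (FM k G (LinearMap.range V.ρ.norm)) := by
    rw [nr_iso e, nr_biprod _ _ hN (fd_FM _)]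
  refine ⟨N, hN, ?_, ?_, ⟨e⟩⟩
  · rw [nr_FM] at h2
    unfold nr at h2 ⊢
    omega
  · rw [h1, dm_FM]
    rfl

lemma projective_left {A B : Rep.{0} k G} (h : Projective (A ⊞ B)) : Projective A where
  factors {E X} f e he := by
    obtain ⟨g, hg⟩ := h.factors (biprod.desc f 0) e
    exact ⟨biprod.inl ≫ g, by rw [Category.assoc, hg, biprod.inl_desc]⟩

/-- the dimension of a projective representation -/
lemma dm_projective (hFV : FV k G) (P : Rep.{0} k G) (hP : FiniteDimensional k P.V)
    (hproj : Projective P) : dm P = Fintype.card G * nr P := by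
  obtain ⟨N, hN, hnr, hd, ⟨e⟩⟩ := decomp hFV P hP
  have hNp : Projective N := projective_left (Projective.of_iso e hproj)
  have hnorm : ∀ x, N.ρ.norm x = 0 := by
    intro x
    have h1 : LinearMap.range N.ρ.norm = ⊥ := Submodule.finrank_eq_zero.1 hnr
    have h2 : N.ρ.norm x ∈ LinearMap.range N.ρ.norm := ⟨x, rfl⟩
    rw [h1] at h2
    exact h2
  have hN0 : dm N = 0 := by
    classical
    by_contra hne
    have hpos : 0 < Module.finrank k N.V := Nat.pos_of_ne_zero hne
    have hnt : Nontrivial N.V := Module.nontrivial_of_finrank_pos hpos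
    obtain ⟨v, hv0, hv⟩ := hFV N.V N.ρ hN (exists_ne 0)
    have hepi : Epi (indHom N (LinearMap.id : N.V →ₗ[k] N.V)) := by
      rw [Rep.epi_iff_surjective]
      intro x
      refine ⟨Pi.single 1 x, ?_⟩
      rw [indHom_apply, Finset.sum_eq_single 1]
      · simp
      · intro b _ hb
        rw [Pi.single_eq_of_ne hb, map_zero, map_zero]
      · intro h; exact absurd (Finset.mem_univ _) h
    obtain ⟨σ, hσ⟩ := hNp.factors (𝟙 N) (indHom N (LinearMap.id : N.V →ₗ[k] N.V))
    have h1 : ∀ x, (indHom N (LinearMap.id : N.V →ₗ[k] N.V)).hom (σ.hom x) = x := by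
      intro x
      have := congrArg (fun f : N ⟶ N => f.hom x) hσ
      exact this
    have h2 : ∀ g, fmRho k G N.V g (σ.hom v) = σ.hom v := by
      intro g
      have := Rep.hom_comm_apply σ g v
      rw [hv g] at this
      exact this.symm
    apply hv0
    rw [← h1 v, indHom_apply]
    have h3 : ∀ h : G, N.ρ h ((LinearMap.id : N.V →ₗ[k] N.V) (σ.hom v h)) = N.ρ h (σ.hom v 1) := fun h => by
      rw [LinearMap.id_apply, fixed_const _ h2 h]
    simp_rw [h3]
    have h4 := hnorm (σ.hom v 1)
    simpa only [Representation.norm, LinearMap.sum_apply] using h4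
  rw [hd, hN0, zero_add]

/-- the dimension of the projective-free part, as a minimum -/
theorem sInf_eq (hFV : FV k G) (V : Rep.{0} k G) (hV : FiniteDimensional k V.V) :
    (sInf {d : ℕ | ∃ N P' : Rep k G, Projective P' ∧ Nonempty (V ≅ N ⊞ P') ∧
      Module.finrank k N.V = d} : ℕ) + Fintype.card G * nr V = dm V := by
  obtain ⟨N, hN, hnr, hd, ⟨e⟩⟩ := decomp hFV V hV
  have hmem : dm N ∈ {d : ℕ | ∃ N P' : Rep k G, Projective P' ∧ Nonempty (V ≅ N ⊞ P') ∧
      Module.finrank k N.V = d} := ⟨N, _, inferInstance, ⟨e⟩, rfl⟩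
  have hle := Nat.sInf_le hmem
  obtain ⟨N', P', hP', ⟨e'⟩, hd'⟩ := Nat.sInf_mem ⟨_, hmem⟩
  have hfd := fd_of_biprod N' P' (fd_iso e' hV)
  have h1 : dm V = dm N' + dm P' := by rw [dm_iso e', dm_biprod _ _ hfd.1 hfd.2]
  have h2 : nr V = nr N' + nr P' := by rw [nr_iso e', nr_biprod _ _ hfd.1 hfd.2]
  have h3 := dm_projective hFV P' hfd.2 hP'
  have h4 : Fintype.card G * nr P' ≤ Fintype.card G * nr V :=
    Nat.mul_le_mul le_rfl (by omega)
  have h5 : dm N' = Module.finrank k N'.V := rfl
  omega

end

end Pool.Agent.U125.CD
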