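import Pool.Agent.U125.CD.Functional

/-!
# Representations of the Klein four group over the field with two elements
-/

set_option autoImplicit false
set_option linter.unusedSectionVars false

open CategoryTheory CategoryTheory.MonoidalCategory CategoryTheory.Limits

namespace Pool.Agent.U125.CD

noncomputable section

/-- the field with two elements -/
abbrev K := ZMod 2

/-- the Klein four group -/
abbrev G4 := Multiplicative (ZMod 2 × ZMod 2)

/-- the first generator -/
def sg : G4 := Multiplicative.ofAdd (1, 0)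
/-- the second generator -/
def tg : G4 := Multiplicative.ofAdd (0, 1)

instance factPrimeTwo : Fact (Nat.Prime 2) := ⟨Nat.prime_two⟩

lemma g4_cases : ∀ g : G4, g = 1 ∨ g = sg ∨ g = tg ∨ g = sg * tg := by decide

lemma sg_mul : sg * sg = 1 := by decide
lemma tg_mul : tg * tg = 1 := by decide
lemma sg_tg : sg * tg = tg * sg := by decide

lemma add_self2 {V : Type} [AddCommGroup V] [Module K V] (x : V) : x + x = 0 := by
  have h : ((1 : K) + 1) • x = 0 := by
    rw [show (1 : K) + 1 = 0 from rfl, zero_smul]
  rwa [add_smul, one_smul] at h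

lemma eq_of_add {V : Type} [AddCommGroup V] [Module K V] {x y : V} (h : x + y = 0) : x = y := by
  have h1 := add_self2 y
  exact (add_right_cancel (h.trans h1.symm))

lemma norm4 {V : Type} [AddCommGroup V] [Module K V] (ρ : Representation K G4 V) (v : V) :
    ρ.norm v = v + ρ sg v + (ρ tg v + ρ sg (ρ tg v)) := by
  have h : (Finset.univ : Finset G4) = {1, sg, tg, sg * tg} := by decide
  simp only [Representation.norm, LinearMap.sum_apply, h]
  rw [Finset.sum_insert (by decide), Finset.sum_insert (by decide),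
    Finset.sum_insert (by decide), Finset.sum_singleton, map_one, map_mul]
  simp only [Module.End.one_apply, Module.End.mul_apply]
  abel

lemma fv4 : FV K G4 := by
  intro V _ _ ρ _ ⟨v, hv⟩
  have hss : ∀ v, ρ sg (ρ sg v) = v := fun v => by
    rw [← Module.End.mul_apply, ← map_mul, sg_mul, map_one, Module.End.one_apply]
  have htt : ∀ v, ρ tg (ρ tg v) = v := fun v => by
    rw [← Module.End.mul_apply, ← map_mul, tg_mul, map_one, Module.End.one_apply]
  have hst : ∀ v, ρ sg (ρ tg v) = ρ tg (ρ sg v) := fun v => by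
    rw [← Module.End.mul_apply, ← map_mul, sg_tg, map_mul, Module.End.mul_apply]
  have fin : ∀ w, ρ sg w = w → ρ tg w = w → ∀ g, ρ g w = w := by
    intro w h1 h2 g
    rcases g4_cases g with rfl | rfl | rfl | rfl
    · rw [map_one, Module.End.one_apply]
    · exact h1
    · exact h2
    · rw [map_mul, Module.End.mul_apply, h2, h1]
  by_cases hN : ∃ v, ρ.norm v ≠ 0
  · obtain ⟨v, hv⟩ := hN
    exact ⟨_, hv, fun g => ρ.self_norm_apply g v⟩
  push Not at hN
  by_cases hS : ∃ v, v + ρ sg v ≠ 0
  · obtain ⟨v, hv⟩ := hS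
    refine ⟨_, hv, fin _ ?_ ?_⟩
    · rw [map_add, hss, add_comm]
    · rw [map_add]
      have h := hN v
      rw [norm4] at h
      rw [← hst]
      exact (eq_of_add h).symm
  push Not at hS
  by_cases hT : ∃ v, v + ρ tg v ≠ 0
  · obtain ⟨v, hv⟩ := hT
    refine ⟨_, hv, fin _ (eq_of_add (hS _)).symm ?_⟩
    rw [map_add, htt, add_comm]
  push Not at hT
  exact ⟨v, hv, fin _ (eq_of_add (hS _)).symm (eq_of_add (hT _)).symm⟩

/-- the action on `A × B` given by two linear maps `x y : A → B` -/
def twoRho {A B : Type} [AddCommGroup A] [Module K A] [AddCommGroup B] [Module K B]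
    (x y : A →ₗ[K] B) : Representation K G4 (A × B) where
  toFun g := LinearMap.prod (LinearMap.fst K A B)
    (LinearMap.snd K A B + ((Multiplicative.toAdd g).1 • x + (Multiplicative.toAdd g).2 • y) ∘ₗ
      LinearMap.fst K A B)
  map_one' := by ext v <;> simp
  map_mul' g h := by
    refine LinearMap.ext fun v => ?_
    refine Prod.ext rfl ?_
    show v.2 + ((Multiplicative.toAdd (g * h)).1 • x v.1 +
        (Multiplicative.toAdd (g * h)).2 • y v.1) =
      (v.2 + ((Multiplicative.toAdd h).1 • x v.1 + (Multiplicative.toAdd h).2 • y v.1)) +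
        ((Multiplicative.toAdd g).1 • x v.1 + (Multiplicative.toAdd g).2 • y v.1)
    rw [toAdd_mul, Prod.fst_add, Prod.snd_add, add_smul, add_smul]
    abel

lemma twoRho_apply {A B : Type} [AddCommGroup A] [Module K A] [AddCommGroup B] [Module K B]
    (x y : A →ₗ[K] B) (g : G4) (v : A × B) :
    twoRho x y g v = (v.1, v.2 + ((Multiplicative.toAdd g).1 • x v.1 +
      (Multiplicative.toAdd g).2 • y v.1)) := rfl

/-- the representation given by two linear maps -/
abbrev two {A B : Type} [AddCommGroup A] [Module K A] [AddCommGroup B] [Module K B]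
    (x y : A →ₗ[K] B) : Rep.{0} K G4 := Rep.of (twoRho x y)

/-- the three-dimensional module `Ω k` -/
def wRho : Representation K G4 (Fin 3 → K) where
  toFun g :=
    { toFun := fun f => ![f 0, f 1,
        f 2 + (Multiplicative.toAdd g).1 * f 1 + (Multiplicative.toAdd g).2 * f 0]
      map_add' := fun f h => by
        ext i; fin_cases i <;> simp; ring
      map_smul' := fun c f => by
        ext i; fin_cases i <;> simp; ring }
  map_one' := by
    refine LinearMap.ext fun f => ?_
    ext i; fin_cases i <;> simp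
  map_mul' g h := by
    refine LinearMap.ext fun f => ?_
    ext i; fin_cases i <;> simp; ring

/-- the three-dimensional module `Ω⁻¹ k` -/
def wRho' : Representation K G4 (Fin 3 → K) where
  toFun g :=
    { toFun := fun f => ![f 0, f 1 + (Multiplicative.toAdd g).1 * f 0,
        f 2 + (Multiplicative.toAdd g).2 * f 0]
      map_add' := fun f h => by
        ext i; fin_cases i <;> simp <;> ring
      map_smul' := fun c f => by
        ext i; fin_cases i <;> simp <;> ring }
  map_one' := by
    refine LinearMap.ext fun f => ?_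
    ext i; fin_cases i <;> simp
  map_mul' g h := by
    refine LinearMap.ext fun f => ?_
    ext i; fin_cases i <;> simp <;> ring

/-- `Ω k` -/
abbrev W : Rep.{0} K G4 := Rep.of wRho
/-- `Ω⁻¹ k` -/
abbrev W' : Rep.{0} K G4 := Rep.of wRho'

/-- coordinates on `E ⊗ W` -/
def co (E : Type) [AddCommGroup E] [Module K E] :
    TensorProduct K E (Fin 3 → K) ≃ₗ[K] (Fin 3 → E) := TensorProduct.piScalarRight K K E (Fin 3)

lemma co_tmul {E : Type} [AddCommGroup E] [Module K E] (e : E) (f : Fin 3 → K) (i : Fin 3) :
    co E (e ⊗ₜ f) i = f i • e := by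
  simp [co]

/-- the action on `E ⊗ W` in coordinates -/
lemma co_W (E : Rep.{0} K G4) (g : G4) (v : (E ⊗ W : Rep.{0} K G4).V) :
    co E.V ((E ⊗ W : Rep.{0} K G4).ρ g v) = ![E.ρ g (co E.V v 0), E.ρ g (co E.V v 1),
      E.ρ g (co E.V v 2 + (Multiplicative.toAdd g).1 • co E.V v 1 +
        (Multiplicative.toAdd g).2 • co E.V v 0)] := by
  induction v using TensorProduct.induction_on with
  | zero => ext i; fin_cases i <;> simp
  | tmul e f =>
    show co E.V (E.ρ g e ⊗ₜ wRho g f) = _
    ext i
    fin_cases i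
    · simp [co_tmul, wRho]
    · simp [co_tmul, wRho]
    · simp [co_tmul, wRho, add_smul, smul_smul]
  | add x y hx hy =>
    rw [map_add, map_add, hx, hy, map_add]
    ext i
    fin_cases i
    · simp
    · simp
    · simp; abel

/-- the action on `E ⊗ W'` in coordinates -/
lemma co_W' (E : Rep.{0} K G4) (g : G4) (v : (E ⊗ W' : Rep.{0} K G4).V) :
    co E.V ((E ⊗ W' : Rep.{0} K G4).ρ g v) = ![E.ρ g (co E.V v 0),
      E.ρ g (co E.V v 1 + (Multiplicative.toAdd g).1 • co E.V v 0),
      E.ρ g (co E.V v 2 + (Multiplicative.toAdd g).2 • co E.V v 0)] := by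
  induction v using TensorProduct.induction_on with
  | zero => ext i; fin_cases i <;> simp
  | tmul e f =>
    show co E.V (E.ρ g e ⊗ₜ wRho' g f) = _
    ext i
    fin_cases i
    · simp [co_tmul, wRho']
    · simp [co_tmul, wRho', add_smul, smul_smul]
    · simp [co_tmul, wRho', add_smul, smul_smul]
  | add x y hx hy =>
    rw [map_add, map_add, hx, hy, map_add]
    ext i
    fin_cases i
    · simp
    · simp; abel
    · simp; abel

section
variable {A B : Type} [AddCommGroup A] [Module K A] [AddCommGroup B] [Module K B]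
  (x y : A →ₗ[K] B)

lemma two_s (v : A × B) : twoRho x y sg v = (v.1, v.2 + x v.1) := by
  rw [twoRho_apply]
  simp [sg]

lemma two_t (v : A × B) : twoRho x y tg v = (v.1, v.2 + y v.1) := by
  rw [twoRho_apply]
  simp [tg]

lemma z2 {V : Type} [AddCommGroup V] [Module K V] (x : V) : (2 : ℤ) • x = 0 := by
  rw [two_smul, add_self2]
lemma z4 {V : Type} [AddCommGroup V] [Module K V] (x : V) : (4 : ℤ) • x = 0 := by
  rw [show (4 : ℤ) = 2 + 2 by norm_num, add_smul, z2, add_zero]
lemma z3 {V : Type} [AddCommGroup V] [Module K V] (x : V) : (3 : ℤ) • x = x := by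
  rw [show (3 : ℤ) = 2 + 1 by norm_num, add_smul, z2, zero_add, one_smul]

lemma co_norm_W (v : (two x y ⊗ W : Rep.{0} K G4).V) :
    co (A × B) ((two x y ⊗ W : Rep.{0} K G4).ρ.norm v) =
      ![0, 0, (0, x (co (A × B) v 0).1 + y (co (A × B) v 1).1)] := by
  have hs := fun v => co_W (two x y) sg v
  have ht := fun v => co_W (two x y) tg v
  have h1 : (Multiplicative.toAdd sg).1 = (1 : K) := rfl
  have h2 : (Multiplicative.toAdd sg).2 = (0 : K) := rfl
  have h3 : (Multiplicative.toAdd tg).1 = (0 : K) := rfl
  have h4 : (Multiplicative.toAdd tg).2 = (1 : K) := rfl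
  rw [norm4, map_add, map_add, map_add, hs, hs, ht]
  simp only [h1, h2, h3, h4, one_smul, zero_smul, add_zero, Matrix.cons_val_zero,
    Matrix.cons_val_one, Matrix.cons_val_two, Matrix.head_cons, Matrix.tail_cons]
  generalize co (A × B) v = c
  clear hs ht h1 h2 h3 h4
  ext i : 1
  rw [Pi.add_apply, Pi.add_apply, Pi.add_apply]
  fin_cases i
  · refine Prod.ext ?_ ?_ <;> simp [two_s, two_t] <;> abel_nf <;> simp [z2, z4]
  · refine Prod.ext ?_ ?_ <;> simp [two_s, two_t] <;> abel_nf <;> simp [z2, z4]
  · refine Prod.ext ?_ ?_ <;> simp [two_s, two_t] <;> abel_nf <;> simp [z2, z4]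

lemma co_norm_W' (v : (two x y ⊗ W' : Rep.{0} K G4).V) :
    co (A × B) ((two x y ⊗ W' : Rep.{0} K G4).ρ.norm v) =
      ![0, (0, y (co (A × B) v 0).1), (0, x (co (A × B) v 0).1)] := by
  have hs := fun v => co_W' (two x y) sg v
  have ht := fun v => co_W' (two x y) tg v
  have h1 : (Multiplicative.toAdd sg).1 = (1 : K) := rfl
  have h2 : (Multiplicative.toAdd sg).2 = (0 : K) := rfl
  have h3 : (Multiplicative.toAdd tg).1 = (0 : K) := rfl
  have h4 : (Multiplicative.toAdd tg).2 = (1 : K) := rfl
  rw [norm4, map_add, map_add, map_add, hs, hs, ht]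
  simp only [h1, h2, h3, h4, one_smul, zero_smul, add_zero, Matrix.cons_val_zero,
    Matrix.cons_val_one, Matrix.cons_val_two, Matrix.head_cons, Matrix.tail_cons]
  generalize co (A × B) v = c
  clear hs ht h1 h2 h3 h4
  ext i : 1
  rw [Pi.add_apply, Pi.add_apply, Pi.add_apply]
  fin_cases i
  · refine Prod.ext ?_ ?_ <;> simp [two_s, two_t] <;> abel_nf <;> simp [z2, z4]
  · refine Prod.ext ?_ ?_ <;> simp [two_s, two_t] <;> abel_nf <;> simp [z2, z4]
  · refine Prod.ext ?_ ?_ <;> simp [two_s, two_t] <;> abel_nf <;> simp [z2, z4]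

end

end

end Pool.Agent.U125.CD
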