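import Pool.Agent.U125.CD.Chain

/-!
# The core dimensions of the tensor powers of `Ω k ⊕ Ω⁻¹ k`
-/

set_option autoImplicit false
set_option linter.unusedSectionVars false

open CategoryTheory CategoryTheory.MonoidalCategory CategoryTheory.Limits

namespace Pool.Agent.U125.CD

noncomputable section

/-- the coordinates of the coevaluation `k → Ω k ⊗ Ω⁻¹ k` -/
def uC : K →ₗ[K] (Fin 3 → (EP 1).V) :=
  LinearMap.pi ![
    (LinearMap.id : K →ₗ[K] K).smulRight
      ((![0, 0], ![1]) : (Fin 2 → K) × (Fin 1 → K)),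
    (LinearMap.id : K →ₗ[K] K).smulRight
      ((![0, 1], ![0]) : (Fin 2 → K) × (Fin 1 → K)),
    (LinearMap.id : K →ₗ[K] K).smulRight
      ((![1, 0], ![0]) : (Fin 2 → K) × (Fin 1 → K))]

lemma uC_apply (c : K) : uC c =
    (![(![0, 0], ![c]), (![0, c], ![0]), (![c, 0], ![0])] :
      Fin 3 → (Fin 2 → K) × (Fin 1 → K)) := by
  funext i
  have h : ∀ (v : (Fin 2 → K) × (Fin 1 → K)),
    (LinearMap.id : K →ₗ[K] K).smulRight v c = c • v := fun v => rfl
  fin_cases i
  · refine (h _).trans ?_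
    refine Prod.ext ?_ ?_ <;> simp
  · refine (h _).trans ?_
    refine Prod.ext ?_ ?_ <;> simp
  · refine (h _).trans ?_
    refine Prod.ext ?_ ?_ <;> simp

/-- the coevaluation -/
def ιC : 𝟙_ (Rep.{0} K G4) ⟶ EP 1 ⊗ W' :=
  homW' (𝟙_ (Rep.{0} K G4)) (EP 1) uC
    (by
      intro c
      show uC c = _
      rw [uC_apply]
      ext i : 1
      fin_cases i
      · show _ = twoRho (tailL 1) (initL 1) sg (![0, 0], ![c])
        rw [two_s]
        refine Prod.ext rfl ?_
        funext l; fin_cases l; simp [tailL_apply]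
      · show _ = twoRho (tailL 1) (initL 1) sg ((![0, c], ![0]) + (![0, 0], ![c]))
        rw [two_s]
        refine Prod.ext (by simp) ?_
        funext l; fin_cases l; simp [tailL_apply, add_self2]
      · show _ = twoRho (tailL 1) (initL 1) sg (![c, 0], ![0])
        rw [two_s]
        refine Prod.ext rfl ?_
        funext l; fin_cases l; simp [tailL_apply])
    (by
      intro c
      show uC c = _
      rw [uC_apply]
      ext i : 1
      fin_cases i
      · show _ = twoRho (tailL 1) (initL 1) tg (![0, 0], ![c])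
        rw [two_t]
        refine Prod.ext rfl ?_
        funext l; fin_cases l; simp [initL_apply]
      · show _ = twoRho (tailL 1) (initL 1) tg (![0, c], ![0])
        rw [two_t]
        refine Prod.ext rfl ?_
        funext l; fin_cases l; simp [initL_apply]
      · show _ = twoRho (tailL 1) (initL 1) tg ((![c, 0], ![0]) + (![0, 0], ![c]))
        rw [two_t]
        refine Prod.ext (by simp) ?_
        funext l; fin_cases l; simp [initL_apply, add_self2])

lemma WW' : ∃ P : Rep.{0} K G4, FiniteDimensional K P.V ∧ Projective P ∧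
    Nonempty (W ⊗ W' ≅ 𝟙_ (Rep.{0} K G4) ⊞ P) := by
  have hfd : FiniteDimensional K (EP 1 ⊗ W' : Rep.{0} K G4).V := fd_tensor _ _ (fd_EP 1) fd_W'
  obtain ⟨e⟩ := iso_W
  have hs : Nonempty (EP 1 ⊗ W' ≅ 𝟙_ (Rep.{0} K G4) ⊞
      FM K G4 (LinearMap.range (EP 1 ⊗ W' : Rep.{0} K G4).ρ.norm)) := by
    refine split fv4 _ _ fd_one hfd ιC ?_ ?_
    · rintro c - ⟨v, hv⟩
      have h := congrArg (co (EP 1).V) hv
      have h1 : co (EP 1).V (ιC.hom c) = uC c := co_homW' _ _ _ _ _ c
      have h2 := (co_norm_W' (tailL 1) (initL 1) v).symm.trans (h.trans h1)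
      rw [uC_apply] at h2
      have h3 := congrFun (congrArg Prod.snd (congrFun h2 0)) 0
      exact h3.symm
    · rw [dm_tensor, dm_EP, dm_W', card_G4]
      have h1 : dm (𝟙_ (Rep.{0} K G4)) = 1 := by
        show Module.finrank K K = 1
        simp
      have h2 : 2 ≤ nr (EP 1 ⊗ W') := by
        refine le_nr hfd (rM (tailL 1) (initL 1)) ?_ (rM_mem _ _)
        refine rM_inj _ _ fun a h0 h1 => ?_
        funext i
        fin_cases i
        · exact congrFun h0 0
        · exact congrFun h1 0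
      omega
  obtain ⟨e'⟩ := hs
  exact ⟨_, fd_FM _, inferInstance, ⟨whiskerRightIso e W' ≪≫ e'⟩⟩

/-- the module `Ω k ⊕ Ω⁻¹ k` -/
def M6 : Rep.{0} K G4 := W ⊞ W'

lemma fd_M6 : FiniteDimensional K M6.V := fd_biprod _ _ fd_W fd_W'

/-- the numbers on the positive side -/
def al (n j : ℕ) : ℤ := aa M6 n (it W j (𝟙_ (Rep.{0} K G4)))
/-- the numbers on the negative side -/
def al' (n j : ℕ) : ℤ := aa M6 n (it W' j (𝟙_ (Rep.{0} K G4)))

lemma fdP (j : ℕ) : FiniteDimensional K (it W j (𝟙_ (Rep.{0} K G4))).V := fd_it _ fd_W _ _ fd_one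
lemma fdM (j : ℕ) : FiniteDimensional K (it W' j (𝟙_ (Rep.{0} K G4))).V :=
  fd_it _ fd_W' _ _ fd_one

lemma step (n : ℕ) (U : Rep.{0} K G4) (hU : FiniteDimensional K U.V) :
    aa M6 (n + 1) U = aa M6 n (U ⊗ W) + aa M6 n (U ⊗ W') := by
  have h : aa M6 n (U ⊗ M6) = aa M6 n ((U ⊗ W) ⊞ (U ⊗ W')) := aa_iso M6 n (distL U W W')
  rw [aa_succ, h, aa_biprod M6 fd_M6 n _ _
    (fd_tensor _ _ hU fd_W) (fd_tensor _ _ hU fd_W')]

lemma al_zero (n : ℕ) : al (n + 1) 0 = al n 1 + al' n 1 := step n _ fd_one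

lemma al'_zero (n : ℕ) : al' (n + 1) 0 = al n 1 + al' n 1 := step n _ fd_one

lemma al_succ (n j : ℕ) : al (n + 1) (j + 1) = al n (j + 2) + al n j := by
  obtain ⟨P, hP, hproj, ⟨e⟩⟩ := WW'
  unfold al
  rw [step n _ (fdP _), it_succ' W (j + 1), it_succ' W j]
  congr 1
  exact aa_cancel fv4 M6 fd_M6 n _ W W' P (fdP j) hP hproj e

lemma al'_succ (n j : ℕ) : al' (n + 1) (j + 1) = al' n (j + 2) + al' n j := by
  obtain ⟨P, hP, hproj, ⟨e⟩⟩ := WW'
  unfold al'
  rw [step n _ (fdM _), it_succ' W' (j + 1), it_succ' W' j, add_comm]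
  congr 1
  exact aa_cancel fv4 M6 fd_M6 n _ W' W P (fdM j) hP hproj (β_ W' W ≪≫ e)

lemma cc_chainP (n j : ℕ) : aa W n (EP j) = 2 * (n + j : ℕ) + 1 := by
  induction n generalizing j with
  | zero => rw [aa_zero, cc_EP]; push_cast; ring
  | succ n ih =>
    obtain ⟨P, hP, hproj, ⟨e⟩⟩ := EP_step j
    rw [aa_succ, aa_add_proj fv4 W fd_W n e (fd_EP _) hP hproj, ih]
    push_cast; ring

lemma cc_chainM (n j : ℕ) : aa W' n (EM j) = 2 * (n + j : ℕ) + 1 := by
  induction n generalizing j with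
  | zero => rw [aa_zero, cc_EM]; push_cast; ring
  | succ n ih =>
    obtain ⟨P, hP, hproj, ⟨e⟩⟩ := EM_step j
    rw [aa_succ, aa_add_proj fv4 W' fd_W' n e (fd_EM _) hP hproj, ih]
    push_cast; ring

lemma al_base (j : ℕ) : al 0 j = 2 * j + 1 := by
  obtain ⟨e⟩ := iso_EP0
  have h : al 0 j = aa W j (𝟙_ (Rep.{0} K G4)) := rfl
  rw [h, aa_iso W j e, cc_chainP]
  push_cast; ring

lemma al'_base (j : ℕ) : al' 0 j = 2 * j + 1 := by
  obtain ⟨e⟩ := iso_EM0
  have h : al' 0 j = aa W' j (𝟙_ (Rep.{0} K G4)) := rfl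
  rw [h, aa_iso W' j e, cc_chainM]
  push_cast; ring

lemma al_eq (n j : ℕ) : al n j = al' n j := by
  induction n generalizing j with
  | zero => rw [al_base, al'_base]
  | succ n ih =>
    rcases j with _ | j
    · rw [al_zero, al'_zero]
    · rw [al_succ, al'_succ, ih, ih]

/-- reflected walks -/
def wk : ℕ → ℕ → ℤ
  | 0, 0 => 1
  | 0, _ + 1 => 0
  | n + 1, 0 => 2 * wk n 1
  | n + 1, j + 1 => wk n (j + 2) + wk n j

lemma al_lap (n : ℕ) : (2 * al n 1 - 2 * al n 0 = 4 * wk n 0) ∧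
    ∀ j, al n (j + 2) + al n j - 2 * al n (j + 1) = 4 * wk n (j + 1) := by
  induction n with
  | zero =>
    refine ⟨?_, fun j => ?_⟩
    · rw [al_base, al_base]; simp [wk]
    · rw [al_base, al_base, al_base]; simp [wk]; ring
  | succ n ih =>
    obtain ⟨h0, h1⟩ := ih
    have hz : al (n + 1) 0 = 2 * al n 1 := by rw [al_zero, ← al_eq]; ring
    refine ⟨?_, fun j => ?_⟩
    · rw [hz, al_succ]
      have := h1 0
      simp only [wk]
      simp only [zero_add] at this ⊢
      linarith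
    · rcases j with _ | j
      · rw [al_succ, al_succ, zero_add, hz]
        have h2 := h1 1
        simp only [wk]
        simp only [zero_add] at h2 ⊢
        have e : al n (1 + 1) = al n 2 := rfl
        have e' : al n (1 + 2) = al n 3 := rfl
        rw [e, e'] at h2
        linarith
      · rw [al_succ, al_succ, al_succ]
        have h2 := h1 (j + 2)
        have h3 := h1 j
        simp only [wk]
        have e1 : al n (j + 2 + 2) = al n (j + 1 + 1 + 2) := rfl
        linarith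

lemma al_rec (n : ℕ) : al (n + 1) 0 = 2 * al n 0 + 4 * wk n 0 := by
  rw [al_zero, ← al_eq, ← (al_lap n).1]; ring

end

end Pool.Agent.U125.CD
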